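import Pool.Agent.Run7.h567.GO.Iface

/-!
# GO, piece CLS (helper973): subquotients of a family of representations form a tensor class
-/

set_option autoImplicit false

namespace Run7.h567.GO

open Matrix

namespace CLS

variable {Γ : Type} [Group Γ] {E : Type} [Field E]

/-- matrix form of `SubQ`: the quotient map and a section are given by matrices -/
def MF {n k : ℕ} (ρ : MRep Γ E n) (τ : MRep Γ E k) : Prop :=
  ∃ (U : Submodule E (Fin k → E)) (P : Matrix (Fin n) (Fin k) E) (S : Matrix (Fin k) (Fin n) E),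
    (∀ g, ∀ u ∈ U, τ g *ᵥ u ∈ U) ∧ P * S = 1 ∧ (∀ v, S *ᵥ v ∈ U) ∧
      ∀ g, ∀ u ∈ U, P *ᵥ (τ g *ᵥ u) = ρ g *ᵥ (P *ᵥ u)

theorem MF.of_subQ {n k : ℕ} {ρ : MRep Γ E n} {τ : MRep Γ E k} (h : SubQ ρ τ) : MF ρ τ := by
  obtain ⟨U, hU, π, hs, he⟩ := h
  obtain ⟨P, hP⟩ := LinearMap.exists_extend π
  obtain ⟨s, hs'⟩ := π.exists_rightInverse_of_surjective (LinearMap.range_eq_top.mpr hs)
  have hP' : ∀ (u : Fin k → E) (hu : u ∈ U), P u = π ⟨u, hu⟩ := fun u hu => by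
    rw [← hP]; rfl
  have hS : ∀ v, LinearMap.toMatrix' (U.subtype ∘ₗ s) *ᵥ v = (s v).1 := fun v => by
    rw [← Matrix.toLin'_apply, Matrix.toLin'_toMatrix']; rfl
  have hPm : ∀ v, LinearMap.toMatrix' P *ᵥ v = P v := fun v => by
    rw [← Matrix.toLin'_apply, Matrix.toLin'_toMatrix']
  refine ⟨U, LinearMap.toMatrix' P, LinearMap.toMatrix' (U.subtype ∘ₗ s), hU, ?_, ?_, ?_⟩
  · rw [← LinearMap.toMatrix'_comp, ← LinearMap.comp_assoc, hP, hs', LinearMap.toMatrix'_id]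
  · intro v
    rw [hS]
    exact (s v).2
  · intro g u hu
    rw [hPm, hPm, hP' _ (hU g u hu), hP' u hu]
    exact he g ⟨u, hu⟩

theorem MF.subQ {n k : ℕ} {ρ : MRep Γ E n} {τ : MRep Γ E k} (h : MF ρ τ) : SubQ ρ τ := by
  obtain ⟨U, P, S, hU, hPS, hS, he⟩ := h
  refine ⟨U, hU, (Matrix.toLin' P) ∘ₗ U.subtype, ?_, ?_⟩
  · intro v
    refine ⟨⟨S *ᵥ v, hS v⟩, ?_⟩
    change Matrix.toLin' P (S *ᵥ v) = v
    rw [Matrix.toLin'_apply, Matrix.mulVec_mulVec, hPS, Matrix.one_mulVec]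
  · intro g u
    change Matrix.toLin' P (τ g *ᵥ u.1) = ρ g *ᵥ (Matrix.toLin' P u.1)
    rw [Matrix.toLin'_apply, Matrix.toLin'_apply]
    exact he g u.1 u.2

theorem MF.trans {n k l : ℕ} {ρ : MRep Γ E n} {τ : MRep Γ E k} {υ : MRep Γ E l}
    (h : MF ρ τ) (h' : MF τ υ) : MF ρ υ := by
  obtain ⟨U, P, S, hU, hPS, hS, he⟩ := h
  obtain ⟨U', P', S', hU', hPS', hS', he'⟩ := h'
  refine ⟨U' ⊓ U.comap (Matrix.toLin' P'), P * P', S' * S, ?_, ?_, ?_, ?_⟩
  · rintro g u ⟨hu1, hu2⟩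
    refine ⟨hU' g u hu1, ?_⟩
    rw [SetLike.mem_coe, Submodule.mem_comap, Matrix.toLin'_apply] at hu2 ⊢
    rw [he' g u hu1]
    exact hU g _ hu2
  · rw [Matrix.mul_assoc, ← Matrix.mul_assoc P', hPS', Matrix.one_mul, hPS]
  · intro v
    rw [← Matrix.mulVec_mulVec]
    refine ⟨hS' _, ?_⟩
    rw [SetLike.mem_coe, Submodule.mem_comap, Matrix.toLin'_apply, Matrix.mulVec_mulVec, hPS',
      Matrix.one_mulVec]
    exact hS v
  · rintro g u ⟨hu1, hu2⟩
    rw [SetLike.mem_coe, Submodule.mem_comap, Matrix.toLin'_apply] at hu2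
    rw [← Matrix.mulVec_mulVec, ← Matrix.mulVec_mulVec, he' g u hu1, he g _ hu2]

theorem MF.dual {n k : ℕ} {ρ : MRep Γ E n} {τ : MRep Γ E k} (h : MF ρ τ) :
    MF (dualR ρ) (dualR τ) := by
  obtain ⟨U, P, S, hU, hPS, hS, he⟩ := h
  -- the functionals on `E ^ k` whose restriction to `U` factors over `P`
  let U' : Submodule E (Fin k → E) :=
    { carrier := {η | ∀ u ∈ U, η ⬝ᵥ u = (Sᵀ *ᵥ η) ⬝ᵥ (P *ᵥ u)}
      add_mem' := by
        intro a b ha hb u hu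
        rw [add_dotProduct, ha u hu, hb u hu, Matrix.mulVec_add, add_dotProduct]
      zero_mem' := by
        intro u _
        rw [zero_dotProduct, Matrix.mulVec_zero, zero_dotProduct]
      smul_mem' := by
        intro c a ha u hu
        rw [smul_dotProduct, ha u hu, Matrix.mulVec_smul, smul_dotProduct] }
  have hU'mem : ∀ η, η ∈ U' ↔ ∀ u ∈ U, η ⬝ᵥ u = (Sᵀ *ᵥ η) ⬝ᵥ (P *ᵥ u) := fun η => Iff.rfl
  have tr : ∀ {a b : ℕ} (M : Matrix (Fin a) (Fin b) E) (x : Fin a → E) (y : Fin b → E),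
      (Mᵀ *ᵥ x) ⬝ᵥ y = x ⬝ᵥ (M *ᵥ y) := by
    intro a b M x y
    rw [Matrix.mulVec_transpose, Matrix.dotProduct_mulVec]
  have key : ∀ g, ∀ η ∈ U', Sᵀ *ᵥ ((τ g⁻¹)ᵀ *ᵥ η) = (ρ g⁻¹)ᵀ *ᵥ (Sᵀ *ᵥ η) := by
    intro g η hη
    rw [hU'mem] at hη
    refine dotProduct_eq _ _ fun v => ?_
    rw [tr, tr, hη _ (hU g⁻¹ _ (hS v)), he g⁻¹ _ (hS v), tr (ρ g⁻¹), Matrix.mulVec_mulVec _ P S,
      hPS, Matrix.one_mulVec]
  refine ⟨U', Sᵀ, Pᵀ, ?_, ?_, ?_, ?_⟩
  · intro g η hη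
    change (τ g⁻¹)ᵀ *ᵥ η ∈ U'
    have hη' := (hU'mem η).1 hη
    rw [hU'mem]
    intro u hu
    rw [key g η hη, tr, tr (ρ g⁻¹), hη' _ (hU g⁻¹ u hu), he g⁻¹ u hu]
  · rw [← Matrix.transpose_mul, hPS, Matrix.transpose_one]
  · intro ξ
    rw [hU'mem]
    intro u _
    rw [tr, Matrix.mulVec_mulVec, ← Matrix.transpose_mul, hPS, Matrix.transpose_one,
      Matrix.one_mulVec]
  · intro g η hη
    exact key g η hη

/-- Kronecker product with indices in `Fin` -/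
def kr {a b c d : ℕ} (A : Matrix (Fin a) (Fin b) E) (B : Matrix (Fin c) (Fin d) E) :
    Matrix (Fin (a * c)) (Fin (b * d)) E :=
  (A.kronecker B).submatrix finProdFinEquiv.symm finProdFinEquiv.symm

/-- tensor product of vectors -/
def tv {a b : ℕ} (u : Fin a → E) (w : Fin b → E) : Fin (a * b) → E :=
  fun i => u (finProdFinEquiv.symm i).1 * w (finProdFinEquiv.symm i).2

theorem kr_mulVec {a b c d : ℕ} (A : Matrix (Fin a) (Fin b) E) (B : Matrix (Fin c) (Fin d) E)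
    (u : Fin b → E) (w : Fin d → E) : kr A B *ᵥ tv u w = tv (A *ᵥ u) (B *ᵥ w) := by
  funext i
  have h1 : (kr A B *ᵥ tv u w) i = ∑ j : Fin (b * d),
      A (finProdFinEquiv.symm i).1 (finProdFinEquiv.symm j).1 *
        B (finProdFinEquiv.symm i).2 (finProdFinEquiv.symm j).2 *
        (u (finProdFinEquiv.symm j).1 * w (finProdFinEquiv.symm j).2) := rfl
  have h2 : (tv (A *ᵥ u) (B *ᵥ w)) i = (∑ j, A (finProdFinEquiv.symm i).1 j * u j) *
      ∑ j, B (finProdFinEquiv.symm i).2 j * w j := rfl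
  rw [h1, h2, ← Equiv.sum_comp finProdFinEquiv, Fintype.sum_prod_type, Finset.sum_mul_sum]
  refine Finset.sum_congr rfl fun x _ => Finset.sum_congr rfl fun y _ => ?_
  rw [Equiv.symm_apply_apply]
  ring

theorem kr_mul {a b c a' b' c' : ℕ} (A : Matrix (Fin a) (Fin b) E) (B : Matrix (Fin a') (Fin b') E)
    (C : Matrix (Fin b) (Fin c) E) (D : Matrix (Fin b') (Fin c') E) :
    kr A B * kr C D = kr (A * C) (B * D) := by
  unfold kr
  rw [Matrix.submatrix_mul_equiv _ _ _ finProdFinEquiv.symm]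
  change submatrix (Matrix.kroneckerMap (· * ·) A B * Matrix.kroneckerMap (· * ·) C D) _ _ =
    submatrix (Matrix.kroneckerMap (· * ·) (A * C) (B * D)) _ _
  rw [Matrix.mul_kronecker_mul]

theorem kr_one {a b : ℕ} : kr (1 : Matrix (Fin a) (Fin a) E) (1 : Matrix (Fin b) (Fin b) E) = 1 := by
  unfold kr
  change submatrix (Matrix.kroneckerMap (· * ·) 1 1) _ _ = 1
  rw [Matrix.one_kronecker_one, Matrix.submatrix_one_equiv]

theorem tv_single {a b : ℕ} (i : Fin (a * b)) :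
    tv (Pi.single (finProdFinEquiv.symm i).1 (1 : E)) (Pi.single (finProdFinEquiv.symm i).2 (1 : E)) =
      Pi.single i (1 : E) := by
  funext j
  unfold tv
  rw [Pi.single_apply, Pi.single_apply, Pi.single_apply]
  by_cases h : j = i
  · subst h; simp
  · rw [if_neg h]
    by_cases h1 : (finProdFinEquiv.symm j).1 = (finProdFinEquiv.symm i).1
    · by_cases h2 : (finProdFinEquiv.symm j).2 = (finProdFinEquiv.symm i).2
      · exact absurd (finProdFinEquiv.symm.injective (Prod.ext h1 h2)) h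
      · rw [if_neg h2, mul_zero]
    · rw [if_neg h1, zero_mul]

theorem MF.tens {n k n' k' : ℕ} {ρ : MRep Γ E n} {τ : MRep Γ E k} {ρ' : MRep Γ E n'}
    {τ' : MRep Γ E k'} (h : MF ρ τ) (h' : MF ρ' τ') :
    MF (GO.tens ρ ρ') (GO.tens τ τ') := by
  obtain ⟨U, P, S, hU, hPS, hS, he⟩ := h
  obtain ⟨U', P', S', hU', hPS', hS', he'⟩ := h'
  have hρ : ∀ g, GO.tens ρ ρ' g = kr (ρ g) (ρ' g) := fun g => rfl
  have hτ : ∀ g, GO.tens τ τ' g = kr (τ g) (τ' g) := fun g => rfl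
  let W : Submodule E (Fin (k * k') → E) :=
    Submodule.span E {x | ∃ u ∈ U, ∃ u' ∈ U', x = tv u u'}
  refine ⟨W, kr P P', kr S S', ?_, ?_, ?_, ?_⟩
  · intro g x hx
    rw [hτ]
    induction hx using Submodule.span_induction with
    | mem x hx =>
      obtain ⟨u, hu, u', hu', rfl⟩ := hx
      rw [kr_mulVec]
      exact Submodule.subset_span ⟨_, hU g u hu, _, hU' g u' hu', rfl⟩
    | zero => rw [Matrix.mulVec_zero]; exact W.zero_mem
    | add x y _ _ hx hy => rw [Matrix.mulVec_add]; exact W.add_mem hx hy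
    | smul c x _ hx => rw [Matrix.mulVec_smul]; exact W.smul_mem c hx
  · rw [kr_mul, hPS, hPS', kr_one]
  · intro v
    have hv : v = ∑ i, v i • (Pi.single i (1 : E) : Fin (n * n') → E) := by
      funext j
      simp [Finset.sum_apply, Pi.single_apply]
    rw [hv, Matrix.mulVec_sum]
    refine W.sum_mem fun i _ => ?_
    rw [Matrix.mulVec_smul, ← tv_single i, kr_mulVec]
    exact W.smul_mem _ (Submodule.subset_span ⟨_, hS _, _, hS' _, rfl⟩)
  · intro g x hx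
    rw [hτ, hρ]
    induction hx using Submodule.span_induction with
    | mem x hx =>
      obtain ⟨u, hu, u', hu', rfl⟩ := hx
      rw [kr_mulVec, kr_mulVec, kr_mulVec, kr_mulVec, he g u hu, he' g u' hu']
    | zero => simp only [Matrix.mulVec_zero]
    | add x y _ _ hx hy => simp only [Matrix.mulVec_add, hx, hy]
    | smul c x _ hx => simp only [Matrix.mulVec_smul, hx]

end CLS

open CLS in
theorem t_CLS : S_CLS := by
  intro Γ _ E _ I d H hone htens hdual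
  have tr : ∀ {n k l : ℕ} {ρ : MRep Γ E n} {τ : MRep Γ E k} {υ : MRep Γ E l},
      SubQ ρ τ → SubQ τ υ → SubQ ρ υ := fun h h' =>
    (MF.trans (MF.of_subQ h) (MF.of_subQ h')).subQ
  refine ⟨hone, ?_, ?_, ?_⟩
  · rintro n k ρ τ ⟨x, hx⟩ ⟨y, hy⟩
    obtain ⟨z, hz⟩ := htens x y
    exact ⟨z, tr (MF.tens (MF.of_subQ hx) (MF.of_subQ hy)).subQ hz⟩
  · rintro n ρ ⟨x, hx⟩
    obtain ⟨y, hy⟩ := hdual x
    exact ⟨y, tr (MF.dual (MF.of_subQ hx)).subQ hy⟩
  · rintro n k ρ τ h ⟨x, hx⟩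
    exact ⟨x, tr h hx⟩

end Run7.h567.GO
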