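import Pool.Agent.Run7.h567.GO.Iface

/-!
# Project GO: the abstract theorem from the pieces
-/

set_option autoImplicit false

namespace Run7.h567.GO

open Matrix Polynomial

theorem aeval_charpoly_one {E : Type} [Field E] {n m : ℕ} (x : Matrix (Fin n) (Fin n) E) :
    aeval x (1 : Matrix (Fin m) (Fin m) E).charpoly = (x - 1) ^ m := by
  rw [Matrix.charpoly_one, map_pow, map_sub, aeval_X, map_one, Fintype.card_fin]

/-- **The abstract theorem.** -/
theorem abs (hPT : S_PT) (hIDT : S_IDT) (hNORM : S_NORM) (hFIB : S_FIB) (hCOEF : S_COEF)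
    {Γ : Type} [Group Γ] {E : Type} [Field E] [CharZero E] [IsAlgClosed E]
    {𝒢 : ∀ n : ℕ, MRep Γ E n → Prop} (h𝒢 : TensorClass 𝒢) {n m : ℕ} {ρ : MRep Γ E n}
    {σ : MRep Γ E m} (hρ : Irred ρ) (hσ : 𝒢 m σ)
    (h : (∀ g, (aeval (ρ g) (σ g).charpoly) ^ n = 0) ∨
      (n = 2 ∧ ∀ g, (aeval (ρ g) (σ g).charpoly).det = 0)) : 𝒢 n ρ := by
  obtain ⟨h1, h2, -⟩ := hPT Γ E n m ρ σ
  refine hCOEF Γ E 𝒢 h𝒢 n m ρ σ hρ hσ (hFIB Γ E n m ρ σ fun x hx => ?_)
  refine hNORM Γ E n ρ hρ {x | Pt ρ σ x 1} ?_ ?_ ?_ ?_ x hx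
  · have := h1 1
    rwa [map_one, map_one] at this
  · intro x hx y hy
    have := h2 _ _ _ _ hx hy
    rwa [one_mul] at this
  · intro g x hx
    have h3 := h2 _ _ _ _ (h2 _ _ _ _ (h1 g) hx) (h1 g⁻¹)
    rwa [mul_one, ← map_mul σ, mul_inv_cancel, map_one] at h3
  · rcases h with h | ⟨hn, h⟩
    · left
      intro x hx
      have h3 := (hIDT Γ E n m ρ σ x 1 hx).1 n h
      rw [aeval_charpoly_one, ← pow_mul] at h3
      exact ⟨_, h3⟩
    · right
      refine ⟨hn, fun x hx => ?_⟩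
      have h3 := (hIDT Γ E n m ρ σ x 1 hx).2 h
      rw [aeval_charpoly_one, Matrix.det_pow] at h3
      have hm : m ≠ 0 := by
        rintro rfl
        rw [pow_zero] at h3
        exact one_ne_zero h3
      exact (pow_eq_zero_iff hm).1 h3

end Run7.h567.GO
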