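import Pool.Agent.Run7.h567.GO.Iface

/-!
# Project GO, piece COEF (helper646): subquotients
-/

set_option autoImplicit false

namespace Run7.h567.GO

open Matrix Polynomial

namespace Coef

variable {Γ : Type} [Group Γ] {E : Type} [Field E]

/-- `u ↦ (g ↦ ξ · τ(g) u)` -/
def cm {k : ℕ} (τ : MRep Γ E k) (ξ : Fin k → E) : (Fin k → E) →ₗ[E] (Γ → E) where
  toFun u := fun g => ξ ⬝ᵥ (τ g *ᵥ u)
  map_add' u v := by
    funext g
    simp only [Matrix.mulVec_add, dotProduct_add, Pi.add_apply]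
  map_smul' c u := by
    funext g
    simp only [Matrix.mulVec_smul, dotProduct_smul, Pi.smul_apply, RingHom.id_apply]

theorem cm_apply {k : ℕ} (τ : MRep Γ E k) (ξ u : Fin k → E) (g : Γ) :
    cm τ ξ u g = ξ ⬝ᵥ (τ g *ᵥ u) := rfl

/-- invariance under right translations -/
def Stab (M : Submodule E (Γ → E)) : Prop :=
  ∀ (x : Γ) (f : Γ → E), f ∈ M → (fun g => f (g * x)) ∈ M

theorem cm_act {k : ℕ} (τ : MRep Γ E k) (ξ u : Fin k → E) (x : Γ) :
    (fun g => cm τ ξ u (g * x)) = cm τ ξ (τ x *ᵥ u) := by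
  funext g
  rw [cm_apply, cm_apply, map_mul, Matrix.mulVec_mulVec]

theorem stab_range {k : ℕ} (τ : MRep Γ E k) (ξ : Fin k → E) :
    Stab (LinearMap.range (cm τ ξ)) := by
  rintro x f ⟨u, rfl⟩
  rw [cm_act]
  exact ⟨_, rfl⟩

theorem stab_bot : Stab (⊥ : Submodule E (Γ → E)) := by
  intro x f hf
  rw [Submodule.mem_bot] at hf ⊢
  subst hf
  rfl

theorem stab_sup {M N : Submodule E (Γ → E)} (hM : Stab M) (hN : Stab N) : Stab (M ⊔ N) := by
  intro x f hf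
  obtain ⟨a, ha, b, hb, rfl⟩ := Submodule.mem_sup.1 hf
  exact Submodule.add_mem_sup (hM x a ha) (hN x b hb)

theorem step {n k : ℕ} {ρ : MRep Γ E n} {τ : MRep Γ E k} (hρ : Irred ρ) (η : Fin n → E)
    (ξ : Fin k → E) (M' : Submodule E (Γ → E)) (hM : Stab M')
    (h1 : LinearMap.range (cm ρ η) ≤ M' ⊔ LinearMap.range (cm τ ξ))
    (h2 : ¬ LinearMap.range (cm ρ η) ≤ M') : SubQ ρ τ := by
  have hN : M'.comap (cm ρ η) = ⊥ := by
    refine (hρ.2 _ ?_).resolve_right ?_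
    · intro g u hu
      rw [Submodule.mem_comap] at hu ⊢
      rw [← cm_act]
      exact hM g _ hu
    · intro h
      apply h2
      rintro _ ⟨v, rfl⟩
      have : v ∈ M'.comap (cm ρ η) := by rw [h]; trivial
      exact this
  set a : (Fin n → E) →ₗ[E] ((Γ → E) ⧸ M') := M'.mkQ ∘ₗ cm ρ η with ha
  set b : (Fin k → E) →ₗ[E] ((Γ → E) ⧸ M') := M'.mkQ ∘ₗ cm τ ξ with hb
  have hinj : Function.Injective a := by
    rw [← LinearMap.ker_eq_bot, ha, LinearMap.ker_comp, Submodule.ker_mkQ]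
    exact hN
  have key : ∀ (g : Γ) (u : Fin k → E) (v : Fin n → E), b u = a v →
      b (τ g *ᵥ u) = a (ρ g *ᵥ v) := by
    intro g u v h
    simp only [ha, hb, LinearMap.comp_apply, Submodule.mkQ_apply] at h ⊢
    rw [Submodule.Quotient.eq] at h ⊢
    rw [← cm_act, ← cm_act]
    exact hM g _ h
  have hU : ∀ g, ∀ u ∈ (LinearMap.range a).comap b, τ g *ᵥ u ∈ (LinearMap.range a).comap b := by
    rintro g u ⟨v, hv⟩
    exact ⟨ρ g *ᵥ v, (key g u v hv.symm).symm⟩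
  set e := LinearEquiv.ofInjective a hinj with he
  set π : ((LinearMap.range a).comap b) →ₗ[E] (Fin n → E) :=
    e.symm.toLinearMap ∘ₗ (LinearMap.codRestrict (LinearMap.range a)
      (b.domRestrict ((LinearMap.range a).comap b)) fun u => u.2) with hπ
  have hπ' : ∀ u, a (π u) = b u.1 := by
    intro u
    have h3 : e (π u) = ⟨b u.1, u.2⟩ := by
      rw [hπ]
      exact e.apply_symm_apply _
    have h4 := congrArg Subtype.val h3
    exact h4
  refine ⟨(LinearMap.range a).comap b, hU, π, ?_, ?_⟩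
  · intro v
    obtain ⟨m, hm, z, ⟨u, rfl⟩, hz⟩ := Submodule.mem_sup.1 (h1 ⟨v, rfl⟩)
    have h5 : b u = a v := by
      simp only [ha, hb, LinearMap.comp_apply, Submodule.mkQ_apply]
      rw [Submodule.Quotient.eq, ← hz]
      have : cm τ ξ u - (m + cm τ ξ u) = -m := by abel
      rw [this]
      exact M'.neg_mem hm
    refine ⟨⟨u, ⟨v, h5.symm⟩⟩, ?_⟩
    apply hinj
    rw [hπ', h5]
  · intro g u
    apply hinj
    rw [hπ']
    exact key g u.1 (π u) (hπ' u).symm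

theorem fin_step {n : ℕ} {ρ : MRep Γ E n} (hρ : Irred ρ) (η : Fin n → E)
    {𝒢 : ∀ n : ℕ, MRep Γ E n → Prop} (h𝒢 : TensorClass 𝒢) {ι : Type} (k : ι → ℕ)
    (τ : ∀ i, MRep Γ E (k i)) (ξ : ∀ i, Fin (k i) → E) (hτ : ∀ i, 𝒢 (k i) (τ i))
    (h0 : ¬ LinearMap.range (cm ρ η) ≤ ⊥) (t : Finset ι) :
    (LinearMap.range (cm ρ η) ≤ t.sup (fun i => LinearMap.range (cm (τ i) (ξ i))) → 𝒢 n ρ) ∧
      Stab (t.sup (fun i => LinearMap.range (cm (τ i) (ξ i)))) := by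
  classical
  induction t using Finset.induction_on with
  | empty =>
    rw [Finset.sup_empty]
    exact ⟨fun h => absurd h h0, stab_bot⟩
  | insert i t hi ih =>
    rw [Finset.sup_insert]
    refine ⟨fun h => ?_, stab_sup (stab_range _ _) ih.2⟩
    by_cases h2 : LinearMap.range (cm ρ η) ≤ t.sup (fun i => LinearMap.range (cm (τ i) (ξ i)))
    · exact ih.1 h2
    · rw [sup_comm] at h
      exact h𝒢.sub _ _ (step hρ η (ξ i) _ ih.2 h h2) (hτ i)

theorem cm_tens {n k : ℕ} (ρ : MRep Γ E n) (τ : MRep Γ E k) (ξ v : Fin n → E) (η w : Fin k → E) :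
    cm ρ ξ v * cm τ η w = cm (tens ρ τ)
      (fun p => ξ (finProdFinEquiv.symm p).1 * η (finProdFinEquiv.symm p).2)
      (fun p => v (finProdFinEquiv.symm p).1 * w (finProdFinEquiv.symm p).2) := by
  funext g
  rw [Pi.mul_apply, cm_apply, cm_apply, cm_apply]
  simp only [dotProduct, Matrix.mulVec]
  rw [Finset.sum_mul_sum, ← finProdFinEquiv.sum_comp, Fintype.sum_prod_type]
  refine Finset.sum_congr rfl fun i _ => Finset.sum_congr rfl fun j _ => ?_
  simp only [Equiv.symm_apply_apply]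
  have h : (ξ i * ∑ x, ρ g i x * v x) * (η j * ∑ x, τ g j x * w x) =
      ξ i * η j * ((∑ x, ρ g i x * v x) * (∑ x, τ g j x * w x)) := by ring
  rw [h]
  congr 1
  rw [Finset.sum_mul_sum, ← finProdFinEquiv.sum_comp, Fintype.sum_prod_type]
  refine Finset.sum_congr rfl fun i' _ => Finset.sum_congr rfl fun j' _ => ?_
  simp only [tens, MonoidHom.coe_mk, OneHom.coe_mk, Matrix.submatrix_apply,
    Equiv.symm_apply_apply, Matrix.kronecker, Matrix.kroneckerMap_apply]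
  ring

/-- the matrix coefficients of the representations of the class -/
def mon (𝒢 : ∀ n : ℕ, MRep Γ E n → Prop) (h𝒢 : TensorClass 𝒢) : Submonoid (Γ → E) where
  carrier := {f | ∃ (k : ℕ) (τ : MRep Γ E k) (ξ v : Fin k → E), 𝒢 k τ ∧ f = cm τ ξ v}
  one_mem' := by
    refine ⟨1, 1, fun _ => 1, fun _ => 1, h𝒢.one, ?_⟩
    funext g
    rw [cm_apply]
    simp [dotProduct]
  mul_mem' := by
    rintro a b ⟨k, τ, ξ, v, h1, rfl⟩ ⟨k', τ', ξ', v', h2, rfl⟩
    exact ⟨k * k', tens τ τ', _, _, h𝒢.tens τ τ' h1 h2, cm_tens τ τ' ξ v ξ' v'⟩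

theorem ent_eq {k : ℕ} (σ : MRep Γ E k) (i j : Fin k) :
    ent σ i j = cm σ (Pi.single i 1) (Pi.single j 1) := by
  funext g
  rw [cm_apply]
  simp [ent]

theorem ent'_eq {k : ℕ} (σ : MRep Γ E k) (i j : Fin k) :
    ent' σ i j = cm (dualR σ) (Pi.single j 1) (Pi.single i 1) := by
  funext g
  rw [cm_apply]
  simp [ent', dualR]

theorem coefAlg_le (𝒢 : ∀ n : ℕ, MRep Γ E n → Prop) (h𝒢 : TensorClass 𝒢) {m : ℕ}
    (σ : MRep Γ E m) (hσ : 𝒢 m σ) (f : Γ → E) (hf : f ∈ coefAlg σ) :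
    f ∈ Submodule.span E (mon 𝒢 h𝒢 : Set (Γ → E)) := by
  have h1 : coefAlg σ ≤ Algebra.adjoin E (mon 𝒢 h𝒢 : Set (Γ → E)) := by
    refine Algebra.adjoin_mono ?_
    rintro _ (⟨p, rfl⟩ | ⟨p, rfl⟩)
    · exact ⟨m, σ, _, _, hσ, ent_eq σ p.1 p.2⟩
    · exact ⟨m, dualR σ, _, _, h𝒢.dual σ hσ, ent'_eq σ p.1 p.2⟩
  have h2 : f ∈ Subalgebra.toSubmodule (Algebra.adjoin E (mon 𝒢 h𝒢 : Set (Γ → E))) := h1 hf
  rw [Algebra.adjoin_eq_span, Submonoid.closure_eq] at h2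
  exact h2

end Coef

open Coef

/-- COEF -/
theorem t_COEF : S_COEF := by
  intro Γ _ E _ 𝒢 h𝒢 n m ρ σ hρ hσ hent
  let ι : Type := {p : Σ k : ℕ, (MRep Γ E k) × (Fin k → E) // 𝒢 p.1 p.2.1}
  let s : ι → Submodule E (Γ → E) := fun p => LinearMap.range (cm p.1.2.1 p.1.2.2)
  have hs : ∀ f, f ∈ Submodule.span E (mon 𝒢 h𝒢 : Set (Γ → E)) → f ∈ ⨆ i, s i := by
    intro f hf
    refine (Submodule.span_le.2 ?_ : Submodule.span E (mon 𝒢 h𝒢 : Set (Γ → E)) ≤ ⨆ i, s i) hf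
    rintro _ ⟨k, τ, ξ, v, h1, rfl⟩
    exact (le_iSup s ⟨⟨k, τ, ξ⟩, h1⟩) ⟨v, rfl⟩
  set i₀ : Fin n := ⟨0, hρ.1⟩
  set η : Fin n → E := Pi.single i₀ 1 with hη
  have h1 : LinearMap.range (cm ρ η) ≤ ⨆ i, s i := by
    rintro _ ⟨v, rfl⟩
    have h2 : cm ρ η v = ∑ j, v j • ent ρ i₀ j := by
      funext g
      rw [cm_apply, hη, single_one_dotProduct, Finset.sum_apply]
      simp only [Matrix.mulVec, dotProduct, Pi.smul_apply, ent, smul_eq_mul]
      exact Finset.sum_congr rfl fun j _ => mul_comm _ _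
    rw [h2]
    exact Submodule.sum_mem _ fun j _ => Submodule.smul_mem _ _
      (hs _ (coefAlg_le 𝒢 h𝒢 σ hσ _ (hent i₀ j)))
  have hfg : (LinearMap.range (cm ρ η)).FG := by
    rw [LinearMap.range_eq_map]
    exact Submodule.FG.map _ (Module.finite_def.1 inferInstance)
  have hc := (Submodule.fg_iff_compact _).1 hfg
  obtain ⟨t, ht⟩ := CompleteLattice.IsCompactElement.exists_finset_of_le_iSup _ hc s h1
  rw [← Finset.sup_eq_iSup] at ht
  refine (fin_step hρ η h𝒢 (fun i : ι => i.1.1) (fun i => i.1.2.1) (fun i => i.1.2.2)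
    (fun i => i.2) ?_ t).1 ht
  intro h0
  have h3 : cm ρ η (Pi.single i₀ 1) = 0 := by
    have := h0 ⟨Pi.single i₀ 1, rfl⟩
    simpa using this
  have h4 := congrFun h3 1
  rw [cm_apply, map_one, Matrix.one_mulVec, hη] at h4
  simp at h4

end Run7.h567.GO
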