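import Pool.Agent.Run7.h567.GO.Cheb
import Pool.Agent.Run7.h567.GO.CLS
import Pool.Agent.Run7.h567.GO.COEF
import Pool.Agent.Run7.h300.GO.PT
import Pool.Agent.Run7.h842.GO.IDT
import Pool.Agent.Run7.h842.GO.NORM
import Pool.Agent.Run7.h590.GO.RING
import Pool.Agent.Run7.h590.GO.LAM
import Pool.Agent.Run7.h930.GO.FIB
import Pool.Agent.Run7.h930.GO.CONT
import Pool.Agent.Run7.h930.GO.NEC

/-!
# Project GO: assembly
-/

set_option autoImplicit false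

namespace Run7.h567.GO

open Matrix Polynomial

theorem fib : S_FIB :=
  Run7.h930.GO.FIB.t_FIB Run7.h300.GO.t_PT Run7.h590.GO.t_RING Run7.h590.GO.t_LAM

section

variable {Γ : Type} [Group Γ] [TopologicalSpace Γ] {V : Type} {D : FrobData Γ V}
  {Λ : Type} {E : Λ → Type} [∀ l, Field (E l)] [∀ l, TopologicalSpace (E l)] {F : Type} [Field F]
  {ι : ∀ l, F →+* E l}

/-- Sufficiency: common Frobenius eigenvalues imply geometric origin. -/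
theorem cat (𝓗 : Cohomology D E ι) (l : Λ) [CharZero (E l)]
    [IsAlgClosed (E l)] [IsTopologicalRing (E l)] [T2Space (E l)] {n : ℕ}
    {ρ : MRep Γ (E l) n} (hρ : Irred ρ) {h : V → F[X]} (hf : HasFrobPoly D (ι l) ρ h) (x : 𝓗.I)
    (H : D.Large {v | h v ∣ 𝓗.P x v ^ n} ∨ (n = 2 ∧ D.Large {v | ¬ IsCoprime (h v) (𝓗.P x v)})) :
    InCat (𝓗.H l x) ρ :=
  cat_of Run7.h300.GO.t_PT Run7.h842.GO.t_IDT Run7.h842.GO.t_NORM fib t_COEF
    Run7.h930.GO.CONT.t_CONT 𝓗 l hρ hf x H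

/-- Necessity. -/
theorem dvd_pow_of_arises (𝓗 : Cohomology D E ι) (l : Λ) [IsAlgClosed (E l)] {n : ℕ}
    {ρ : MRep Γ (E l) n} {h : V → F[X]} (hf : HasFrobPoly D (ι l) ρ h) (H : 𝓗.Arises l ρ) :
    ∃ x, D.Large {v | h v ∣ 𝓗.P x v ^ n ∧ (h v).natDegree = n} :=
  dvd_of_arises Run7.h930.GO.NEC.t_NEC 𝓗 l hf H

/-- Compatible systems of irreducible representations of any dimension. -/
theorem compatible (𝓗 : Cohomology D E ι) [Nonempty Λ]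
    [∀ l, CharZero (E l)] [∀ l, IsAlgClosed (E l)] [∀ l, IsTopologicalRing (E l)]
    [∀ l, T2Space (E l)] {n : ℕ} (ρ : ∀ l, MRep Γ (E l) n) (hρ : ∀ l, Irred (ρ l)) (h : V → F[X])
    (hf : ∀ l, HasFrobPoly D (ι l) (ρ l) h) :
    List.TFAE [∃ l, 𝓗.Arises l (ρ l), ∀ l, 𝓗.Arises l (ρ l),
      ∃ x, ∀ l, InCat (𝓗.H l x) (ρ l),
      ∃ x, D.Large {v | h v ∣ 𝓗.P x v ^ n}] :=
  main Run7.h300.GO.t_PT Run7.h842.GO.t_IDT Run7.h842.GO.t_NORM fib t_COEF t_CLS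
    Run7.h930.GO.CONT.t_CONT Run7.h930.GO.NEC.t_NEC 𝓗 ρ hρ h hf

/-- Compatible systems of irreducible representations of dimension two. -/
theorem compatible_two (𝓗 : Cohomology D E ι) [Nonempty Λ]
    [∀ l, CharZero (E l)] [∀ l, IsAlgClosed (E l)] [∀ l, IsTopologicalRing (E l)]
    [∀ l, T2Space (E l)] (ρ : ∀ l, MRep Γ (E l) 2) (hρ : ∀ l, Irred (ρ l)) (h : V → F[X])
    (hf : ∀ l, HasFrobPoly D (ι l) (ρ l) h) :
    List.TFAE [∃ l, 𝓗.Arises l (ρ l), ∀ l, 𝓗.Arises l (ρ l),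
      ∃ x, ∀ l, InCat (𝓗.H l x) (ρ l),
      ∃ x, D.Large {v | h v ∣ 𝓗.P x v ^ 2},
      ∃ x, D.Large {v | ¬ IsCoprime (h v) (𝓗.P x v)}] :=
  main_two Run7.h300.GO.t_PT Run7.h842.GO.t_IDT Run7.h842.GO.t_NORM fib t_COEF t_CLS
    Run7.h930.GO.CONT.t_CONT Run7.h930.GO.NEC.t_NEC 𝓗 ρ hρ h hf

end

end Run7.h567.GO
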