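import Pool.Agent.Run7.h567.GO.Root
import Pool.Agent.Run7.h567.GO.Fin

/-!
# Project GO: all but at most one of the eigenvalues
-/

set_option autoImplicit false

namespace Run7.h567.GO

open Matrix Polynomial Run7.h842.GO

section norm

variable {Γ : Type} [Group Γ] {E : Type} [Field E] [CharZero E] {n : ℕ}

/-- NORM for matrices with at most one eigenvalue different from `1` -/
theorem norm_one {ρ : MRep Γ E n} (hn : 2 ≤ n) (hρ : Irred ρ) (X : Set (Matrix (Fin n) (Fin n) E))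
    (hXm : ∀ x ∈ X, ∀ y ∈ X, x * y ∈ X)
    (hXc : ∀ g, ∀ x ∈ X, ρ g * x * ρ g⁻¹ ∈ X)
    (hX : ∀ x ∈ X, x.trace = (n - 1 : ℕ) + x.det) : ∀ x ∈ X, x = 1 := by
  let S : Submodule E (Matrix (Fin n) (Fin n) E) := Submodule.span E {s | ∃ x ∈ X, s = x - 1}
  have hgen : ∀ x ∈ X, x - 1 ∈ S := fun x hx => Submodule.subset_span ⟨x, hx, rfl⟩
  have hprod : ∀ x y : Matrix (Fin n) (Fin n) E,
      (x - 1) * (y - 1) = (x * y - 1) - (x - 1) - (y - 1) := by
    intro x y
    noncomm_ring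
  have hmul : ∀ s ∈ S, ∀ t ∈ S, s * t ∈ S := by
    intro s hs t ht
    have hle : S * S ≤ S := by
      rw [Submodule.span_mul_span]
      refine Submodule.span_le.2 ?_
      rintro _ ⟨_, ⟨x, hx, rfl⟩, _, ⟨y, hy, rfl⟩, rfl⟩
      show (x - 1) * (y - 1) ∈ S
      rw [hprod]
      exact S.sub_mem (S.sub_mem (hgen _ (hXm x hx y hy)) (hgen x hx)) (hgen y hy)
    exact hle (Submodule.mul_mem_mul hs ht)
  have hgg : ∀ g, ρ g * ρ g⁻¹ = 1 := fun g => by rw [← map_mul, mul_inv_cancel, map_one]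
  have hconj : ∀ g, ∀ s ∈ S, ρ g * s * ρ g⁻¹ ∈ S := by
    intro g s hs
    induction hs using Submodule.span_induction with
    | mem s hs =>
      obtain ⟨x, hx, rfl⟩ := hs
      have : ρ g * (x - 1) * ρ g⁻¹ = ρ g * x * ρ g⁻¹ - 1 := by
        rw [mul_sub, sub_mul, mul_one, hgg]
      rw [this]
      exact hgen _ (hXc g x hx)
    | zero => simp
    | add a b _ _ iha ihb =>
      rw [mul_add, add_mul]
      exact S.add_mem iha ihb
    | smul c a _ iha =>
      rw [mul_smul_comm, smul_mul_assoc]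
      exact S.smul_mem c iha
  have h1n : (1 : Matrix (Fin n) (Fin n) E).trace = n := by simp
  have hcast : ((n - 1 : ℕ) : E) = n - 1 := by
    rw [Nat.cast_sub (by omega), Nat.cast_one]
  have hbase : ∀ x ∈ X, ∀ y ∈ X, ((x - 1) * (y - 1)).trace = (x - 1).trace * (y - 1).trace := by
    intro x hx y hy
    have e1 := hX x hx
    have e2 := hX y hy
    have e3 := hX _ (hXm x hx y hy)
    rw [Matrix.det_mul] at e3
    rw [hprod, Matrix.trace_sub, Matrix.trace_sub, Matrix.trace_sub, Matrix.trace_sub,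
      Matrix.trace_sub, e1, e2, e3, h1n, hcast]
    ring
  have htr : ∀ s ∈ S, ∀ t ∈ S, (s * t).trace = s.trace * t.trace := by
    intro s hs t ht
    induction hs using Submodule.span_induction with
    | mem s hs =>
      obtain ⟨x, hx, rfl⟩ := hs
      induction ht using Submodule.span_induction with
      | mem t ht =>
        obtain ⟨y, hy, rfl⟩ := ht
        exact hbase x hx y hy
      | zero => simp
      | add a b _ _ iha ihb => rw [mul_add, Matrix.trace_add, iha, ihb, Matrix.trace_add, mul_add]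
      | smul c a _ iha =>
        rw [mul_smul_comm, Matrix.trace_smul, Matrix.trace_smul, iha, smul_eq_mul, smul_eq_mul]
        ring
    | zero => simp
    | add a b _ _ iha ihb => rw [add_mul, Matrix.trace_add, iha, ihb, Matrix.trace_add, add_mul]
    | smul c a _ iha =>
      rw [smul_mul_assoc, Matrix.trace_smul, Matrix.trace_smul, iha, smul_eq_mul, smul_eq_mul]
      ring
  have main := norm_aux ρ hρ S hmul hconj htr
  intro x hx
  by_contra hne
  have hs := hgen x hx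
  have hs0 : x - 1 ≠ 0 := sub_ne_zero.2 hne
  have ht0 : (x - 1).trace ≠ 0 := fun h => hs0 (main _ hs h)
  set e : Matrix (Fin n) (Fin n) E := ((x - 1).trace)⁻¹ • (x - 1) with he
  have heS : e ∈ S := S.smul_mem _ hs
  have het : e.trace = 1 := by
    rw [he, Matrix.trace_smul, smul_eq_mul, inv_mul_cancel₀ ht0]
  have hee : e * e = e := by
    have h3 : e * e - e = 0 := by
      refine main _ (S.sub_mem (hmul e heS e heS) heS) ?_
      rw [Matrix.trace_sub, htr e heS e heS, het]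
      ring
    exact sub_eq_zero.1 h3
  have hcomm : ∀ g, ρ g * e * ρ g⁻¹ = e := by
    intro g
    have h3 : ρ g * e * ρ g⁻¹ - e = 0 := by
      refine main _ (S.sub_mem (hconj g e heS) heS) ?_
      have hgg' : ρ g⁻¹ * ρ g = 1 := by rw [← map_mul, inv_mul_cancel, map_one]
      rw [Matrix.trace_sub, Matrix.trace_mul_comm, ← mul_assoc, hgg', one_mul, sub_self]
    exact sub_eq_zero.1 h3
  have hcomm' : ∀ g, ρ g * e = e * ρ g := by
    intro g
    have hgg' : ρ g⁻¹ * ρ g = 1 := by rw [← map_mul, inv_mul_cancel, map_one]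
    calc ρ g * e = ρ g * e * (ρ g⁻¹ * ρ g) := by rw [hgg', mul_one]
      _ = (ρ g * e * ρ g⁻¹) * ρ g := by rw [mul_assoc (ρ g * e)]
      _ = e * ρ g := by rw [hcomm]
  let W : Submodule E (Fin n → E) := LinearMap.range (Matrix.mulVecLin e)
  have hWst : ∀ g, ∀ u ∈ W, ρ g *ᵥ u ∈ W := by
    rintro g _ ⟨v, rfl⟩
    refine ⟨ρ g *ᵥ v, ?_⟩
    show e *ᵥ (ρ g *ᵥ v) = ρ g *ᵥ (e *ᵥ v)
    rw [Matrix.mulVec_mulVec, Matrix.mulVec_mulVec, hcomm']
  rcases hρ.2 W hWst with hW | hW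
  · have h4 : e = 0 := by
      refine eq_of_mulVec (fun v => ?_)
      have : e *ᵥ v ∈ W := ⟨v, rfl⟩
      rw [hW, Submodule.mem_bot] at this
      rw [this, Matrix.zero_mulVec]
    rw [h4] at het
    simp at het
  · have h4 : e = 1 := by
      refine eq_of_mulVec (fun v => ?_)
      have : v ∈ W := by rw [hW]; exact Submodule.mem_top
      obtain ⟨w, hw⟩ := this
      have hw' : e *ᵥ w = v := hw
      rw [← hw', Matrix.mulVec_mulVec, hee, Matrix.one_mulVec]
    rw [h4, h1n] at het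
    have : n = 1 := by exact_mod_cast het
    omega

end norm

section idt

variable {Γ : Type} [Group Γ] {E : Type} [Field E] {n m : ℕ} {ρ : MRep Γ E n} {σ : MRep Γ E m}

/-- IDT for the characteristic polynomial -/
theorem idt_one {x : Matrix (Fin n) (Fin n) E} {y : Matrix (Fin m) (Fin m) E} (hxy : Pt ρ σ x y)
    (k : ℕ) (H : ∀ g, (X : E[X]) ^ k ∣ (aeval (ρ g) (σ g).charpoly).charpoly) :
    (X : E[X]) ^ k ∣ (aeval x y.charpoly).charpoly := by
  obtain ⟨φ, hφ1, hφ2⟩ := hxy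
  have memρ : ∀ i j, ent ρ i j ∈ bigAlg ρ σ := fun i j =>
    (le_sup_left : coefAlg ρ ≤ bigAlg ρ σ)
      (Algebra.subset_adjoin (Or.inl ⟨(i, j), rfl⟩))
  have memσ : ∀ i j, ent σ i j ∈ bigAlg ρ σ := fun i j =>
    (le_sup_right : coefAlg σ ≤ bigAlg ρ σ)
      (Algebra.subset_adjoin (Or.inl ⟨(i, j), rfl⟩))
  let P : Matrix (Fin n) (Fin n) (bigAlg ρ σ) := fun i j => ⟨ent ρ i j, memρ i j⟩
  let Q : Matrix (Fin m) (Fin m) (bigAlg ρ σ) := fun i j => ⟨ent σ i j, memσ i j⟩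
  let M : Matrix (Fin n) (Fin n) (bigAlg ρ σ) := aeval P Q.charpoly
  let ev : Γ → (bigAlg ρ σ →+* E) := fun g => (Pi.evalRingHom (fun _ : Γ => E) g).comp
    (bigAlg ρ σ).val.toRingHom
  have hev : ∀ g, (ev g).mapMatrix M = aeval (ρ g) (σ g).charpoly := by
    intro g
    rw [map_aeval_charpoly]
    rfl
  have hφM : (φ : bigAlg ρ σ →+* E).mapMatrix M = aeval x y.charpoly := by
    have e1 : (φ : bigAlg ρ σ →+* E).mapMatrix P = x := by
      ext i j
      exact hφ1 i j (memρ i j)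
    have e2 : (φ : bigAlg ρ σ →+* E).mapMatrix Q = y := by
      ext i j
      exact hφ2 i j (memσ i j)
    rw [map_aeval_charpoly, e1, e2]
  have hzero : ∀ a : bigAlg ρ σ, (∀ g, ev g a = 0) → a = 0 := by
    intro a ha
    apply Subtype.ext
    funext g
    exact ha g
  rw [← hφM, RingHom.mapMatrix_apply, Matrix.charpoly_map, X_pow_dvd_iff]
  intro d hd
  rw [coeff_map]
  have h1 : M.charpoly.coeff d = 0 := by
    refine hzero _ fun g => ?_
    rw [← coeff_map, ← Matrix.charpoly_map, ← RingHom.mapMatrix_apply, hev]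
    exact X_pow_dvd_iff.1 (H g) d hd
  rw [h1, map_zero]

end idt

/-- **The abstract theorem**: all but at most one of the eigenvalues of `ρ g` are eigenvalues of
`σ g`. -/
theorem abs_one {Γ : Type} [Group Γ] {E : Type} [Field E] [CharZero E] [IsAlgClosed E]
    {n m : ℕ} (hn : 2 ≤ n) {ρ : MRep Γ E n} {σ : MRep Γ E m} (hρ : Irred ρ)
    (H : ∀ g, (X : E[X]) ^ (n - 1) ∣ (aeval (ρ g) (σ g).charpoly).charpoly) : InCat σ ρ := by
  intro 𝒢 h𝒢 hσ
  obtain ⟨h1, h2, -⟩ := Run7.h300.GO.t_PT Γ E n m ρ σ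
  refine t_COEF Γ E 𝒢 h𝒢 n m ρ σ hρ hσ (fib Γ E n m ρ σ fun x hx => ?_)
  refine norm_one hn hρ {x | Pt ρ σ x 1} ?_ ?_ ?_ x hx
  · intro x hx y hy
    have := h2 _ _ _ _ hx hy
    rwa [one_mul] at this
  · intro g x hx
    have h3 := h2 _ _ _ _ (h2 _ _ _ _ (h1 g) hx) (h1 g⁻¹)
    rwa [mul_one, ← map_mul σ, mul_inv_cancel, map_one σ] at h3
  · intro x hx
    have h3 := idt_one hx (n - 1) H
    rw [aeval_charpoly_one] at h3
    exact trace_of_dvd hn x h3

section main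

theorem continuous_coeff {Γ : Type} [TopologicalSpace Γ] {E : Type} [Field E] [TopologicalSpace E]
    [IsTopologicalRing E] {m : ℕ} {σ : Γ → Matrix (Fin m) (Fin m) E} (hσ : Continuous σ) (i : ℕ) :
    Continuous fun g => (σ g).charpoly.coeff i := by
  have h3 : ∀ g, (σ g).charpoly.coeff i =
      MvPolynomial.eval (fun p : Fin m × Fin m => σ g p.1 p.2)
        ((Matrix.charpoly.univ E (Fin m)).coeff i) := by
    intro g
    have h4 := Matrix.charpoly.univ_coeff_eval₂Hom (n := Fin m) (RingHom.id E)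
      (fun p : Fin m × Fin m => σ g p.1 p.2) i
    exact h4.symm
  simp only [h3]
  apply (MvPolynomial.continuous_eval _).comp
  exact continuous_pi fun p => hσ.matrix_elem p.1 p.2

variable {Γ : Type} [Group Γ] [TopologicalSpace Γ] {V : Type} {D : FrobData Γ V}
  {Λ : Type} {E : Λ → Type} [∀ l, Field (E l)] [∀ l, TopologicalSpace (E l)] {F : Type} [Field F]
  {ι : ∀ l, F →+* E l}

/-- Sufficiency: if all but at most one of the Frobenius eigenvalues of `ρ` are Frobenius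
eigenvalues of the member `x` then `ρ` is in the tensor category generated by this member. -/
theorem cat_one (𝓗 : Cohomology D E ι) (l : Λ) [CharZero (E l)]
    [IsAlgClosed (E l)] [IsTopologicalRing (E l)] [T2Space (E l)] {n : ℕ} (hn : 2 ≤ n)
    {ρ : MRep Γ (E l) n} (hρ : Irred ρ) {h : V → F[X]} (hf : HasFrobPoly D (ι l) ρ h) (x : 𝓗.I)
    (H : D.Large {v | ∃ q, q ∣ h v ∧ q ∣ 𝓗.P x v ^ n ∧ n ≤ q.natDegree + 1}) :
    InCat (𝓗.H l x) ρ := by
  obtain ⟨hc1, S₁, hS₁, hS₁'⟩ := hf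
  obtain ⟨hc2, S₂, hS₂, hS₂'⟩ := 𝓗.frob l x
  have hcont := Run7.h930.GO.CONT.t_CONT Γ (E l) n (𝓗.dim x) (fun g => ρ g)
    (fun g => 𝓗.H l x g) hc1 hc2
  refine abs_one hn hρ ?_
  have hC : {g | (X : (E l)[X]) ^ (n - 1) ∣ (aeval (ρ g) (𝓗.H l x g).charpoly).charpoly} =
      Set.univ := by
    refine D.chebotarev _ (D.large_inter _ _ H (D.cof_inter _ _ hS₁ hS₂)) _ ?_ ?_ ?_
    · have h1 : {g | (X : (E l)[X]) ^ (n - 1) ∣
          (aeval (ρ g) (𝓗.H l x g).charpoly).charpoly} = ⋂ d ∈ Set.Iio (n - 1),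
          {g | (aeval (ρ g) (𝓗.H l x g).charpoly).charpoly.coeff d = 0} := by
        ext g
        simp only [Set.mem_ofPred_eq, Set.mem_iInter, Set.mem_Iio, X_pow_dvd_iff]
      rw [h1]
      exact isClosed_biInter fun d _ =>
        isClosed_singleton.preimage (continuous_coeff hcont d)
    · intro g hg y
      rw [Set.mem_ofPred_eq] at hg ⊢
      rwa [cond_conj, charpoly_conj (inv_mul_rep ρ y)]
    · rintro v ⟨⟨q, hq1, hq2, hq3⟩, hv1, hv2⟩ g hg
      rw [Set.mem_ofPred_eq]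
      have h1 : q.map (ι l) ∣ (ρ g).charpoly := by
        rw [hS₁' v hv1 g hg]
        exact Polynomial.map_dvd _ hq1
      have h2 : q.map (ι l) ∣ (𝓗.H l x g).charpoly ^ n := by
        rw [hS₂' v hv2 g hg, ← Polynomial.map_pow]
        exact Polynomial.map_dvd _ hq2
      have h3 := X_pow_dvd_of_dvd (ρ g) h1 h2
      rw [natDegree_map] at h3
      exact (pow_dvd_pow _ (by omega)).trans h3
  exact fun g => hC.ge (Set.mem_univ g)

/-- Compatible systems of irreducible representations of dimension at least two. -/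
theorem compatible_one (𝓗 : Cohomology D E ι) [Nonempty Λ]
    [∀ l, CharZero (E l)] [∀ l, IsAlgClosed (E l)] [∀ l, IsTopologicalRing (E l)]
    [∀ l, T2Space (E l)] {n : ℕ} (hn : 2 ≤ n) (ρ : ∀ l, MRep Γ (E l) n)
    (hρ : ∀ l, Irred (ρ l)) (h : V → F[X]) (hf : ∀ l, HasFrobPoly D (ι l) (ρ l) h) :
    List.TFAE [∃ l, 𝓗.Arises l (ρ l), ∀ l, 𝓗.Arises l (ρ l),
      ∃ x, ∀ l, InCat (𝓗.H l x) (ρ l),
      ∃ x, D.Large {v | h v ∣ 𝓗.P x v ^ n},
      ∃ x, D.Large {v | ∃ q, q ∣ h v ∧ q ∣ 𝓗.P x v ^ n ∧ n ≤ q.natDegree + 1}] := by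
  tfae_have 1 → 4 := by
    rintro ⟨l, hl⟩
    obtain ⟨x, hx⟩ := dvd_pow_of_arises 𝓗 l (hf l) hl
    exact ⟨x, D.large_mono _ _ hx fun v hv => hv.1⟩
  tfae_have 1 → 5 := by
    rintro ⟨l, hl⟩
    obtain ⟨x, hx⟩ := dvd_pow_of_arises 𝓗 l (hf l) hl
    exact ⟨x, D.large_mono _ _ hx fun v hv => ⟨h v, dvd_rfl, hv.1, by rw [hv.2]; omega⟩⟩
  tfae_have 4 → 3 := by
    rintro ⟨x, hx⟩
    exact ⟨x, fun l => cat 𝓗 l (hρ l) (hf l) x (Or.inl hx)⟩
  tfae_have 5 → 3 := by
    rintro ⟨x, hx⟩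
    exact ⟨x, fun l => cat_one 𝓗 l hn (hρ l) (hf l) x hx⟩
  tfae_have 3 → 2 := by
    rintro ⟨x, hx⟩ l
    exact arises_of_cat t_CLS 𝓗 l x (hx l)
  tfae_have 2 → 1 := fun H => ⟨Classical.arbitrary Λ, H _⟩
  tfae_finish

end main

end Run7.h567.GO
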