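import Pool.Agent.Run7.h567.GO.Gen
import Pool.Agent.R401.Eng
import Pool.Agent.W401.Cheb.Frob

/-!
# Project GO: the Galois group of a number field
-/

set_option autoImplicit false

namespace Run7.h567.GO

open NumberField Filter Topology IsDedekindDomain Pool.Agent.W401.Cheb

variable {K : Type} [Field K] [NumberField K]

/-- The set `S` of places has a complement of lower density zero. -/
def LargeSet (S : Set (HeightOneSpectrum (𝓞 K))) : Prop :=
  ∀ ε : ℝ, 0 < ε → ∃ᶠ N : ℕ in atTop, dens (fun v => v ∉ S) N ≤ ε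

theorem dens_union (P Q : HeightOneSpectrum (𝓞 K) → Prop) (N : ℕ) :
    dens (fun v => P v ∨ Q v) N ≤ dens P N + dens Q N := by
  have hfin := Pool.Agent.W352.ChAbs.finite_le (K := K) N
  unfold dens
  rw [← add_div]
  apply div_le_div_of_nonneg_right _ (Nat.cast_nonneg _)
  have h1 : ∀ R : HeightOneSpectrum (𝓞 K) → Prop,
      Nat.card {v : HeightOneSpectrum (𝓞 K) // Ideal.absNorm v.asIdeal ≤ N ∧ R v} =
        {v : HeightOneSpectrum (𝓞 K) | Ideal.absNorm v.asIdeal ≤ N ∧ R v}.ncard := fun R => rfl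
  rw [h1, h1, h1]
  have h2 : {v : HeightOneSpectrum (𝓞 K) | Ideal.absNorm v.asIdeal ≤ N ∧ (P v ∨ Q v)} =
      {v | Ideal.absNorm v.asIdeal ≤ N ∧ P v} ∪ {v | Ideal.absNorm v.asIdeal ≤ N ∧ Q v} := by
    ext v
    simp only [Set.mem_ofPred_eq, Set.mem_union]
    tauto
  rw [h2]
  exact_mod_cast Set.ncard_union_le _ _

theorem tendsto_dens_finite {T : Set (HeightOneSpectrum (𝓞 K))} (hT : T.Finite) :
    Tendsto (dens fun v => v ∈ T) atTop (𝓝 0) := by
  have h1 : Tendsto (fun N : ℕ => (T.ncard : ℝ) / (Nat.primeCounting N : ℝ)) atTop (𝓝 0) :=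
    tendsto_const_nhds.div_atTop
      (tendsto_natCast_atTop_atTop.comp Nat.tendsto_primeCounting)
  refine squeeze_zero (fun N => ?_) (fun N => ?_) h1
  · unfold dens
    positivity
  · unfold dens
    apply div_le_div_of_nonneg_right _ (Nat.cast_nonneg _)
    have h2 : Nat.card {v : HeightOneSpectrum (𝓞 K) // Ideal.absNorm v.asIdeal ≤ N ∧ v ∈ T} =
        {v : HeightOneSpectrum (𝓞 K) | Ideal.absNorm v.asIdeal ≤ N ∧ v ∈ T}.ncard := rfl
    have h3 : {v : HeightOneSpectrum (𝓞 K) | Ideal.absNorm v.asIdeal ≤ N ∧ v ∈ T} ⊆ T := by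
      intro v hv
      rw [Set.mem_ofPred_eq] at hv
      exact hv.2
    rw [h2]
    exact Nat.cast_le.2 (Set.ncard_le_ncard h3 hT)

theorem large_univ_of_finite {S : Set (HeightOneSpectrum (𝓞 K))} (hS : Sᶜ.Finite) :
    LargeSet S := by
  intro ε hε
  exact ((tendsto_dens_finite hS).eventually_le_const hε).frequently

theorem LargeSet.mono {S T : Set (HeightOneSpectrum (𝓞 K))} (hS : LargeSet S) (h : S ⊆ T) :
    LargeSet T := fun ε hε => (hS ε hε).mono fun N hN =>
  (Pool.Agent.R401.Eng.dens_le (fun v (hv : v ∉ T) hvS => hv (h hvS)) N).trans hN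

theorem LargeSet.inter {S T : Set (HeightOneSpectrum (𝓞 K))} (hS : LargeSet S)
    (hT : Tᶜ.Finite) : LargeSet (S ∩ T) := by
  intro ε hε
  have h1 := (tendsto_dens_finite hT).eventually_le_const (half_pos hε)
  refine ((hS (ε / 2) (half_pos hε)).and_eventually h1).mono fun N hN => ?_
  calc dens (fun v => v ∉ S ∩ T) N ≤ dens (fun v => v ∉ S ∨ v ∈ Tᶜ) N := by
        refine Pool.Agent.R401.Eng.dens_le (fun v hv => ?_) N
        rw [Set.mem_compl_iff, ← not_and_or]
        exact hv
    _ ≤ dens (fun v => v ∉ S) N + dens (fun v => v ∈ Tᶜ) N := dens_union _ _ N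
    _ ≤ ε / 2 + ε / 2 := add_le_add hN.1 hN.2
    _ = ε := add_halves ε

/-- **Chebotarev's theorem for closed sets** -/
theorem cheb_closed (S : Set (HeightOneSpectrum (𝓞 K))) (hS : LargeSet S) (C : Set (GK K))
    (hC : IsClosed C) (hconj : ∀ g ∈ C, ∀ x : GK K, x * g * x⁻¹ ∈ C)
    (h : ∀ v ∈ S, ∀ g, IsFrob v g → g ∈ C) : C = Set.univ := by
  classical
  by_contra hne
  obtain ⟨x, hx⟩ := (Set.ne_univ_iff_exists_notMem C).1 hne
  have hopen : IsOpen ((fun u : GK K => x * u) ⁻¹' Cᶜ) :=
    hC.isOpen_compl.preimage (continuous_const_mul x)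
  obtain ⟨U, hU⟩ := ProfiniteGrp.exist_openNormalSubgroup_sub_open_nhds_of_one hopen
    (show (1 : GK K) ∈ (fun u : GK K => x * u) ⁻¹' Cᶜ by simpa using hx)
  have hfin : Finite (GK K ⧸ (U : Subgroup (GK K))) :=
    Subgroup.quotient_finite_of_isOpen _ U.isOpen'
  have hfi : (U : Subgroup (GK K)).FiniteIndex := Subgroup.finiteIndex_of_finite_quotient
  have : Fintype (GK K ⧸ (U : Subgroup (GK K))) := Fintype.ofFinite _
  set A : Finset (GK K) := (Finset.univ.erase (QuotientGroup.mk x : GK K ⧸ (U : Subgroup (GK K)))).image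
    Quotient.out with hA
  have hind : (U : Subgroup (GK K)).index = Fintype.card (GK K ⧸ (U : Subgroup (GK K))) := by
    rw [Subgroup.index, Nat.card_eq_fintype_card]
  have hpos : 0 < (U : Subgroup (GK K)).index := Nat.pos_of_ne_zero hfi.index_ne_zero
  have hcard : A.card ≤ (U : Subgroup (GK K)).index - 1 := by
    refine Finset.card_image_le.trans ?_
    rw [Finset.card_erase_of_mem (Finset.mem_univ _), Finset.card_univ, hind]
    exact le_rfl
  have hθ : ∃ᶠ N : ℕ in atTop,
      dens (fun v : HeightOneSpectrum (𝓞 K) => ∃ g, IsFrob v g ∧ g ∉ C) N ≤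
        1 / (2 * (U : Subgroup (GK K)).index) := by
    refine (hS (1 / (2 * (U : Subgroup (GK K)).index)) (by positivity)).mono fun N hN => ?_
    refine (Pool.Agent.R401.Eng.dens_le (fun v hv hvS => ?_) N).trans hN
    obtain ⟨g, hg, hgC⟩ := hv
    exact hgC (h v hvS g hg)
  have key := Pool.Agent.R401.Eng.engine C hC hconj hθ (m := 1) (fun _ => 1)
    (U : Subgroup (GK K)) U.isOpen' A (by
      intro g hg
      have hgC : g ∈ C := by simpa using hg 0
      refine ⟨Quotient.out (QuotientGroup.mk g : GK K ⧸ (U : Subgroup (GK K))), ?_, ?_⟩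
      · refine Finset.mem_image_of_mem _ (Finset.mem_erase.2 ⟨fun hgx => ?_, Finset.mem_univ _⟩)
        have h1 : x⁻¹ * g ∈ (U : Subgroup (GK K)) := QuotientGroup.eq.1 hgx.symm
        have h2 := hU h1
        rw [Set.mem_preimage, mul_inv_cancel_left] at h2
        exact h2 hgC
      · exact QuotientGroup.eq.1 (QuotientGroup.out_eq' _))
  have h1 : (A.card : ℝ) ≤ (U : Subgroup (GK K)).index - 1 := by
    have h2 : (A.card : ℝ) + 1 ≤ (U : Subgroup (GK K)).index := by
      exact_mod_cast (by omega : A.card + 1 ≤ (U : Subgroup (GK K)).index)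
    linarith
  have hpos' : (0 : ℝ) < (U : Subgroup (GK K)).index := by exact_mod_cast hpos
  have h3 : (1 - ((1 : ℕ) : ℝ) * (1 / (2 * ((U : Subgroup (GK K)).index : ℝ)))) *
      (U : Subgroup (GK K)).index = (U : Subgroup (GK K)).index - 1 / 2 := by
    field_simp
    push_cast
    ring
  rw [h3] at key
  linarith

/-- The places and Frobenius elements of a number field `K`; a set of places is large if its
complement has lower density zero. -/
def numberField (K : Type) [Field K] [NumberField K] :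
    FrobData (GK K) (HeightOneSpectrum (𝓞 K)) where
  IsFrob := IsFrob
  Large := LargeSet
  Cof S := Sᶜ.Finite
  exists_frob := (Pool.Agent.W401.Frob.main K).1
  cof_inter S T hS hT := by rw [Set.compl_inter]; exact hS.union hT
  large_inter S T hS hT := hS.inter hT
  large_of_cof S T hS h := (large_univ_of_finite hS).mono h
  large_mono S T hS h := hS.mono h
  chebotarev S hS C hC hconj h := cheb_closed S hS C hC hconj h

end Run7.h567.GO
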