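import Pool.Agent.Run7.h567.GO.Abs

/-!
# Project GO: compatible systems and geometric origin
-/

set_option autoImplicit false

namespace Run7.h567.GO

open Matrix Polynomial

section defs

/-- Frobenius elements in a topological group `Γ`: `V` is the set of places, `IsFrob v g` says that `g` is
a Frobenius element at `v`; there is a notion of large sets of places (complement of density zero, or
containing a dense open subset) for which Chebotarev's theorem holds: a closed set, invariant under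
conjugation, which contains the Frobenius elements at the places of a large set, is everything. -/
structure FrobData (Γ : Type) [Group Γ] [TopologicalSpace Γ] (V : Type) where
  /-- `g` is a Frobenius element at `v` -/
  IsFrob : V → Γ → Prop
  /-- the large sets of places -/
  Large : Set V → Prop
  /-- the sets of places which contain almost all places -/
  Cof : Set V → Prop
  exists_frob : ∀ v, ∃ g, IsFrob v g
  cof_inter : ∀ S T, Cof S → Cof T → Cof (S ∩ T)
  large_inter : ∀ S T, Large S → Cof T → Large (S ∩ T)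
  large_of_cof : ∀ S T, Cof S → S ⊆ T → Large T
  large_mono : ∀ S T, Large S → S ⊆ T → Large T
  chebotarev : ∀ S, Large S → ∀ C : Set Γ, IsClosed C → (∀ g ∈ C, ∀ x, x * g * x⁻¹ ∈ C) →
    (∀ v ∈ S, ∀ g, IsFrob v g → g ∈ C) → C = Set.univ

/-- The representation `ρ` is continuous, and the characteristic polynomials of the Frobenius
elements at almost all places are given by the polynomials `h v` over the field `F`, embedded by `ι`. -/
def HasFrobPoly {Γ : Type} [Group Γ] [TopologicalSpace Γ] {V : Type} (D : FrobData Γ V)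
    {F E : Type} [Field F] [Field E] [TopologicalSpace E] (ι : F →+* E) {n : ℕ} (ρ : MRep Γ E n)
    (h : V → F[X]) : Prop :=
  (Continuous fun g => (ρ g : Matrix (Fin n) (Fin n) E)) ∧
    ∃ S, D.Cof S ∧ ∀ v ∈ S, ∀ g, D.IsFrob v g → (ρ g).charpoly = (h v).map ι

/-- The cohomology of smooth projective varieties: `I` is the set of the triples `(X, i, j)`; for
each coefficient field `E l` (for example the algebraic closures of the fields `ℚ_ℓ`) there are the
representations `H l x` on `H^i(X)(j)`, with Frobenius polynomials `P x v` which do not depend on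
`l`. Tensor products (Künneth), duals (Poincaré) and the trivial representation are subquotients
of members of the family. -/
structure Cohomology {Γ : Type} [Group Γ] [TopologicalSpace Γ] {V : Type} (D : FrobData Γ V)
    {Λ : Type} (E : Λ → Type) [∀ l, Field (E l)] [∀ l, TopologicalSpace (E l)] {F : Type} [Field F]
    (ι : ∀ l, F →+* E l) where
  /-- the triples `(X, i, j)` -/
  I : Type
  /-- the dimension of `H^i(X)(j)` -/
  dim : I → ℕ
  /-- the representation on `H^i(X)(j)` with coefficients in `E l` -/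
  H : ∀ (l : Λ) (x : I), MRep Γ (E l) (dim x)
  /-- the characteristic polynomials of the Frobenius elements -/
  P : I → V → F[X]
  frob : ∀ l x, HasFrobPoly D (ι l) (H l x) (P x)
  one : ∃ x, ∀ l, SubQ (1 : MRep Γ (E l) 1) (H l x)
  tensor : ∀ x y, ∃ z, ∀ l, SubQ (tens (H l x) (H l y)) (H l z)
  dual : ∀ x, ∃ y, ∀ l, SubQ (dualR (H l x)) (H l y)

/-- `ρ` is a subquotient of some `H^i(X)(j)`. -/
def Cohomology.Arises {Γ : Type} [Group Γ] [TopologicalSpace Γ] {V : Type} {D : FrobData Γ V}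
    {Λ : Type} {E : Λ → Type} [∀ l, Field (E l)] [∀ l, TopologicalSpace (E l)] {F : Type} [Field F]
    {ι : ∀ l, F →+* E l} (𝓗 : Cohomology D E ι) (l : Λ) {n : ℕ} (ρ : MRep Γ (E l) n) : Prop :=
  ∃ x, SubQ ρ (𝓗.H l x)

/-- `ρ` is in the tensor category generated by `σ`: it belongs to each class of representations
which contains `σ` and the trivial representation, and is closed under tensor products, duals and
subquotients. -/
def InCat {Γ : Type} [Group Γ] {E : Type} [Field E] {m n : ℕ} (σ : MRep Γ E m) (ρ : MRep Γ E n) :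
    Prop :=
  ∀ 𝒢 : ∀ n : ℕ, MRep Γ E n → Prop, TensorClass 𝒢 → 𝒢 m σ → 𝒢 n ρ

end defs

section lemmas

variable {Γ : Type} [Group Γ] {E : Type} [Field E]

theorem aeval_conj {n : ℕ} {a b : Matrix (Fin n) (Fin n) E} (h : b * a = 1)
    (M : Matrix (Fin n) (Fin n) E) (p : E[X]) : aeval (a * M * b) p = a * aeval M p * b := by
  have hab : a * b = 1 := mul_eq_one_comm.1 h
  induction p using Polynomial.induction_on' with
  | add p q hp hq => rw [map_add, map_add, hp, hq, mul_add, add_mul]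
  | monomial k c =>
    have h1 : ∀ k : ℕ, (a * M * b) ^ k = a * M ^ k * b := by
      intro k
      induction k with
      | zero => rw [pow_zero, pow_zero, mul_one, hab]
      | succ k ih =>
        rw [pow_succ, ih, pow_succ]
        calc a * M ^ k * b * (a * M * b) = a * M ^ k * (b * a) * M * b := by noncomm_ring
          _ = _ := by rw [h, mul_one]; noncomm_ring
    rw [aeval_monomial, aeval_monomial, h1, Algebra.algebraMap_eq_smul_one]
    simp only [smul_mul_assoc, one_mul, mul_smul_comm]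

theorem charpoly_conj {n : ℕ} {a b : Matrix (Fin n) (Fin n) E} (h : b * a = 1)
    (M : Matrix (Fin n) (Fin n) E) : (a * M * b).charpoly = M.charpoly := by
  rw [mul_assoc, Matrix.charpoly_mul_comm, mul_assoc, h, mul_one]

theorem inv_mul_rep {n : ℕ} (ρ : MRep Γ E n) (g : Γ) : ρ g⁻¹ * ρ g = 1 := by
  rw [← map_mul, inv_mul_cancel, map_one]

/-- The condition is invariant under conjugation. -/
theorem cond_conj {n m : ℕ} (ρ : MRep Γ E n) (σ : MRep Γ E m) (g x : Γ) :
    aeval (ρ (x * g * x⁻¹)) (σ (x * g * x⁻¹)).charpoly =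
      ρ x * aeval (ρ g) (σ g).charpoly * ρ x⁻¹ := by
  rw [map_mul, map_mul, map_mul, map_mul, charpoly_conj (inv_mul_rep σ x),
    aeval_conj (inv_mul_rep ρ x)]

/-- a root of the characteristic polynomial of `M` which is a root of `p` -/
theorem det_aeval_eq_zero {n : ℕ} {M : Matrix (Fin n) (Fin n) E} {p : E[X]} {r : E}
    (h1 : M.charpoly.IsRoot r) (h2 : p.IsRoot r) : (aeval M p).det = 0 := by
  obtain ⟨q, hq⟩ := dvd_iff_isRoot.2 h2
  rw [hq, map_mul, Matrix.det_mul]
  have h3 : (aeval M (X - C r)).det = 0 := by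
    rw [map_sub, aeval_X, aeval_C]
    have h4 : (scalar (Fin n) r - M).det = 0 := by
      rw [← Matrix.eval_charpoly]; exact h1
    have h5 : M - algebraMap E (Matrix (Fin n) (Fin n) E) r = - (scalar (Fin n) r - M) := by
      rw [neg_sub]; rfl
    rw [h5, Matrix.det_neg, h4, mul_zero]
  rw [h3, zero_mul]

/-- If all roots of `p` are roots of `q` then `p` divides a power of `q`. -/
theorem charpoly_dvd_pow [IsAlgClosed E] {n m : ℕ} {M : Matrix (Fin n) (Fin n) E}
    {N : Matrix (Fin m) (Fin m) E} (h : aeval M N.charpoly = 0) :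
    M.charpoly ∣ N.charpoly ^ n := by
  have hm : M.charpoly.Monic := M.charpoly_monic
  have h1 : ∀ s : Multiset E, (∀ a ∈ s, N.charpoly.IsRoot a) →
      (s.map (X - C ·)).prod ∣ N.charpoly ^ s.card := by
    intro s
    induction s using Multiset.induction_on with
    | empty => intro; simp
    | cons a s ih =>
      intro hs
      rw [Multiset.map_cons, Multiset.prod_cons, Multiset.card_cons, pow_succ, mul_comm]
      exact mul_dvd_mul (ih fun b hb => hs b (Multiset.mem_cons_of_mem hb))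
        (dvd_iff_isRoot.2 (hs a (Multiset.mem_cons_self a s)))
  have h2 : ∀ a ∈ M.charpoly.roots, N.charpoly.IsRoot a := by
    intro a ha
    have ha1 : M.charpoly.IsRoot a := isRoot_of_mem_roots ha
    have h3 := det_aeval_eq_zero (p := X - C a) ha1 (by simp)
    obtain ⟨v, hv, hv2⟩ := Matrix.exists_mulVec_eq_zero_iff.2 h3
    rw [map_sub, aeval_X, aeval_C, Matrix.sub_mulVec, sub_eq_zero] at hv2
    have h4 : ∀ k : ℕ, M ^ k *ᵥ v = a ^ k • v := by
      intro k
      induction k with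
      | zero => simp
      | succ k ih =>
        rw [pow_succ, ← Matrix.mulVec_mulVec, hv2, Algebra.algebraMap_eq_smul_one,
          Matrix.smul_mulVec, Matrix.one_mulVec, Matrix.mulVec_smul, ih, smul_smul, pow_succ,
          mul_comm]
    have h5 : ∀ p : E[X], aeval M p *ᵥ v = p.eval a • v := by
      intro p
      induction p using Polynomial.induction_on' with
      | add p q hp hq => rw [map_add, Matrix.add_mulVec, hp, hq, eval_add, add_smul]
      | monomial k c =>
        rw [aeval_monomial, ← Matrix.mulVec_mulVec, h4, Algebra.algebraMap_eq_smul_one,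
          Matrix.smul_mulVec, Matrix.one_mulVec, smul_smul, eval_monomial]
    have h6 := h5 N.charpoly
    rw [h, Matrix.zero_mulVec] at h6
    exact (smul_eq_zero.1 h6.symm).resolve_right hv
  have h3 := h1 _ h2
  rw [← (IsAlgClosed.splits M.charpoly).eq_prod_roots_of_monic hm] at h3
  have h4 : M.charpoly.roots.card = n := by
    rw [splits_iff_card_roots.1 (IsAlgClosed.splits M.charpoly), charpoly_natDegree_eq_dim,
      Fintype.card_fin]
  rwa [h4] at h3

theorem SubQ.refl {n : ℕ} (ρ : MRep Γ E n) : SubQ ρ ρ := by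
  refine ⟨⊤, fun g u hu => trivial, (⊤ : Submodule E (Fin n → E)).subtype, ?_, ?_⟩
  · intro v
    exact ⟨⟨v, trivial⟩, rfl⟩
  · intro g u
    rfl

end lemmas

section main

variable {Γ : Type} [Group Γ] [TopologicalSpace Γ] {V : Type} {D : FrobData Γ V}
  {Λ : Type} {E : Λ → Type} [∀ l, Field (E l)] [∀ l, TopologicalSpace (E l)] {F : Type} [Field F]
  {ι : ∀ l, F →+* E l}

/-- Sufficiency: many common Frobenius eigenvalues imply that `ρ` is in the tensor category. -/
theorem cat_of (hPT : S_PT) (hIDT : S_IDT) (hNORM : S_NORM) (hFIB : S_FIB) (hCOEF : S_COEF)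
    (hCONT : S_CONT) (𝓗 : Cohomology D E ι) (l : Λ) [CharZero (E l)]
    [IsAlgClosed (E l)] [IsTopologicalRing (E l)] [T2Space (E l)] {n : ℕ}
    {ρ : MRep Γ (E l) n} (hρ : Irred ρ) {h : V → F[X]} (hf : HasFrobPoly D (ι l) ρ h) (x : 𝓗.I)
    (H : D.Large {v | h v ∣ 𝓗.P x v ^ n} ∨ (n = 2 ∧ D.Large {v | ¬ IsCoprime (h v) (𝓗.P x v)})) :
    InCat (𝓗.H l x) ρ := by
  intro 𝒢 h𝒢 hx𝒢
  obtain ⟨hc1, S₁, hS₁, hS₁'⟩ := hf
  obtain ⟨hc2, S₂, hS₂, hS₂'⟩ := 𝓗.frob l x
  have hcont := hCONT Γ (E l) n (𝓗.dim x) (fun g => ρ g) (fun g => 𝓗.H l x g) hc1 hc2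
  refine abs hPT hIDT hNORM hFIB hCOEF h𝒢 hρ (σ := 𝓗.H l x) hx𝒢 ?_
  rcases H with H | ⟨hn, H⟩
  · left
    have hC : {g | (aeval (ρ g) (𝓗.H l x g).charpoly) ^ n = 0} = Set.univ := by
      refine D.chebotarev _ (D.large_inter _ _ H (D.cof_inter _ _ hS₁ hS₂)) _ ?_ ?_ ?_
      · exact isClosed_singleton.preimage (hcont.pow n)
      · intro g hg y
        rw [Set.mem_ofPred_eq] at hg ⊢
        rw [cond_conj]
        have h1 : ∀ k : ℕ, (ρ y * aeval (ρ g) (𝓗.H l x g).charpoly * ρ y⁻¹) ^ k =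
            ρ y * (aeval (ρ g) (𝓗.H l x g).charpoly) ^ k * ρ y⁻¹ := by
          intro k
          induction k with
          | zero => rw [pow_zero, pow_zero, mul_one, ← map_mul, mul_inv_cancel, map_one]
          | succ k ih =>
            rw [pow_succ, ih, pow_succ]
            calc _ = ρ y * aeval (ρ g) (𝓗.H l x g).charpoly ^ k * (ρ y⁻¹ * ρ y) *
                  aeval (ρ g) (𝓗.H l x g).charpoly * ρ y⁻¹ := by noncomm_ring
              _ = _ := by rw [inv_mul_rep, mul_one]; noncomm_ring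
        rw [h1, hg, mul_zero, zero_mul]
      · rintro v ⟨hv, hv1, hv2⟩ g hg
        rw [Set.mem_ofPred_eq, ← map_pow, hS₂' v hv2 g hg]
        obtain ⟨q, hq⟩ := hv
        rw [← Polynomial.map_pow, hq, Polynomial.map_mul, ← hS₁' v hv1 g hg, map_mul,
          Matrix.aeval_self_charpoly, zero_mul]
    exact fun g => hC.ge (Set.mem_univ g)
  · right
    refine ⟨hn, ?_⟩
    have hC : {g | (aeval (ρ g) (𝓗.H l x g).charpoly).det = 0} = Set.univ := by
      refine D.chebotarev _ (D.large_inter _ _ H (D.cof_inter _ _ hS₁ hS₂)) _ ?_ ?_ ?_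
      · exact isClosed_singleton.preimage hcont.matrix_det
      · intro g hg y
        rw [Set.mem_ofPred_eq] at hg ⊢
        rw [cond_conj, Matrix.det_mul, Matrix.det_mul, hg, mul_zero, zero_mul]
      · rintro v ⟨hv, hv1, hv2⟩ g hg
        rw [Set.mem_ofPred_eq] at hv ⊢
        rw [← Polynomial.isCoprime_map (ι l), ← hS₁' v hv1 g hg, ← hS₂' v hv2 g hg,
          Polynomial.isCoprime_iff_aeval_ne_zero_of_isAlgClosed (k := E l) (E l)] at hv
        push Not at hv
        obtain ⟨r, hr1, hr2⟩ := hv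
        exact det_aeval_eq_zero (r := r) (by rwa [coe_aeval_eq_eval] at hr1)
          (by rwa [coe_aeval_eq_eval] at hr2)
    exact fun g => hC.ge (Set.mem_univ g)

theorem tensorClass (hCLS : S_CLS) (𝓗 : Cohomology D E ι) (l : Λ) :
    TensorClass fun n (ρ : MRep Γ (E l) n) => 𝓗.Arises l ρ := by
  refine hCLS Γ (E l) 𝓗.I 𝓗.dim (𝓗.H l) ?_ ?_ ?_
  · obtain ⟨x, hx⟩ := 𝓗.one
    exact ⟨x, hx l⟩
  · intro x y
    obtain ⟨z, hz⟩ := 𝓗.tensor x y
    exact ⟨z, hz l⟩
  · intro x
    obtain ⟨y, hy⟩ := 𝓗.dual x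
    exact ⟨y, hy l⟩

theorem arises_of_cat (hCLS : S_CLS) (𝓗 : Cohomology D E ι) (l : Λ) {n : ℕ}
    {ρ : MRep Γ (E l) n} (x : 𝓗.I) (H : InCat (𝓗.H l x) ρ) : 𝓗.Arises l ρ :=
  H _ (tensorClass hCLS 𝓗 l) ⟨x, SubQ.refl _⟩

/-- Necessity. -/
theorem dvd_of_arises (hNEC : S_NEC) (𝓗 : Cohomology D E ι) (l : Λ) [IsAlgClosed (E l)] {n : ℕ}
    {ρ : MRep Γ (E l) n} {h : V → F[X]} (hf : HasFrobPoly D (ι l) ρ h) (H : 𝓗.Arises l ρ) :
    ∃ x, D.Large {v | h v ∣ 𝓗.P x v ^ n ∧ (h v).natDegree = n} := by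
  obtain ⟨hc1, S₁, hS₁, hS₁'⟩ := hf
  obtain ⟨x, hx⟩ := H
  obtain ⟨hc2, S₂, hS₂, hS₂'⟩ := 𝓗.frob l x
  refine ⟨x, D.large_of_cof _ _ (D.cof_inter _ _ hS₁ hS₂) ?_⟩
  rintro v ⟨hv1, hv2⟩
  obtain ⟨g, hg⟩ := D.exists_frob v
  have h1 := charpoly_dvd_pow (hNEC Γ (E l) n _ ρ _ hx g)
  have h2 : (ρ g).charpoly.natDegree = n := by
    rw [charpoly_natDegree_eq_dim, Fintype.card_fin]
  rw [hS₁' v hv1 g hg, hS₂' v hv2 g hg, ← Polynomial.map_pow, Polynomial.map_dvd_map'] at h1
  rw [hS₁' v hv1 g hg, natDegree_map] at h2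
  exact ⟨h1, h2⟩

/-- MAIN THEOREM for compatible systems of irreducible representations. -/
theorem main (hPT : S_PT) (hIDT : S_IDT) (hNORM : S_NORM) (hFIB : S_FIB) (hCOEF : S_COEF)
    (hCLS : S_CLS) (hCONT : S_CONT) (hNEC : S_NEC) (𝓗 : Cohomology D E ι) [Nonempty Λ]
    [∀ l, CharZero (E l)] [∀ l, IsAlgClosed (E l)] [∀ l, IsTopologicalRing (E l)]
    [∀ l, T2Space (E l)] {n : ℕ} (ρ : ∀ l, MRep Γ (E l) n) (hρ : ∀ l, Irred (ρ l)) (h : V → F[X])
    (hf : ∀ l, HasFrobPoly D (ι l) (ρ l) h) :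
    List.TFAE [∃ l, 𝓗.Arises l (ρ l), ∀ l, 𝓗.Arises l (ρ l),
      ∃ x, ∀ l, InCat (𝓗.H l x) (ρ l),
      ∃ x, D.Large {v | h v ∣ 𝓗.P x v ^ n}] := by
  tfae_have 1 → 4 := by
    rintro ⟨l, hl⟩
    obtain ⟨x, hx⟩ := dvd_of_arises hNEC 𝓗 l (hf l) hl
    exact ⟨x, D.large_mono _ _ hx fun v hv => hv.1⟩
  tfae_have 4 → 3 := by
    rintro ⟨x, hx⟩
    exact ⟨x, fun l => cat_of hPT hIDT hNORM hFIB hCOEF hCONT 𝓗 l (hρ l) (hf l) x (Or.inl hx)⟩
  tfae_have 3 → 2 := by
    rintro ⟨x, hx⟩ l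
    exact arises_of_cat hCLS 𝓗 l x (hx l)
  tfae_have 2 → 1 := fun H => ⟨Classical.arbitrary Λ, H _⟩
  tfae_finish

/-- MAIN THEOREM for compatible systems of irreducible representations of dimension two. -/
theorem main_two (hPT : S_PT) (hIDT : S_IDT) (hNORM : S_NORM) (hFIB : S_FIB) (hCOEF : S_COEF)
    (hCLS : S_CLS) (hCONT : S_CONT) (hNEC : S_NEC) (𝓗 : Cohomology D E ι) [Nonempty Λ]
    [∀ l, CharZero (E l)] [∀ l, IsAlgClosed (E l)] [∀ l, IsTopologicalRing (E l)]
    [∀ l, T2Space (E l)] (ρ : ∀ l, MRep Γ (E l) 2) (hρ : ∀ l, Irred (ρ l)) (h : V → F[X])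
    (hf : ∀ l, HasFrobPoly D (ι l) (ρ l) h) :
    List.TFAE [∃ l, 𝓗.Arises l (ρ l), ∀ l, 𝓗.Arises l (ρ l),
      ∃ x, ∀ l, InCat (𝓗.H l x) (ρ l),
      ∃ x, D.Large {v | h v ∣ 𝓗.P x v ^ 2},
      ∃ x, D.Large {v | ¬ IsCoprime (h v) (𝓗.P x v)}] := by
  tfae_have 1 → 5 := by
    rintro ⟨l, hl⟩
    obtain ⟨x, hx⟩ := dvd_of_arises hNEC 𝓗 l (hf l) hl
    refine ⟨x, D.large_mono _ _ hx fun v hv hco => ?_⟩
    have h1 : IsUnit (h v) := (hco.pow_right (n := 2)).isUnit_of_dvd hv.1
    have h2 := natDegree_eq_zero_of_isUnit h1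
    rw [hv.2] at h2
    exact two_ne_zero h2
  tfae_have 1 → 4 := by
    rintro ⟨l, hl⟩
    obtain ⟨x, hx⟩ := dvd_of_arises hNEC 𝓗 l (hf l) hl
    exact ⟨x, D.large_mono _ _ hx fun v hv => hv.1⟩
  tfae_have 4 → 3 := by
    rintro ⟨x, hx⟩
    exact ⟨x, fun l => cat_of hPT hIDT hNORM hFIB hCOEF hCONT 𝓗 l (hρ l) (hf l) x (Or.inl hx)⟩
  tfae_have 5 → 3 := by
    rintro ⟨x, hx⟩
    exact ⟨x, fun l => cat_of hPT hIDT hNORM hFIB hCOEF hCONT 𝓗 l (hρ l) (hf l) x
      (Or.inr ⟨rfl, hx⟩)⟩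
  tfae_have 3 → 2 := by
    rintro ⟨x, hx⟩ l
    exact arises_of_cat hCLS 𝓗 l x (hx l)
  tfae_have 2 → 1 := fun H => ⟨Classical.arbitrary Λ, H _⟩
  tfae_finish

end main

end Run7.h567.GO
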