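import Mathlib

/-!
# Project GO (helper567): one Frobenius eigenvalue decides geometric origin

MAIN THEOREM. `K` a number field, `ρ` an irreducible `ℓ`-adic representation of `Gal(K)` (over an
algebraically closed field of characteristic zero), `σ` a representation which comes from geometry (a
subquotient of `H^i(X)(j)`). Suppose that for all places `v` outside a set of lower density zero

* all Frobenius eigenvalues of `ρ` at `v` are Frobenius eigenvalues of `σ` at `v` (any multiplicities), or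
* `dim ρ = 2` and ONE of the two Frobenius eigenvalues of `ρ` is a Frobenius eigenvalue of `σ`.

Then `ρ` is a subquotient of a tensor product of copies of `σ` and of its dual; so `ρ` comes from geometry.
In a compatible system of irreducible representations one member comes from geometry iff all do
(independence of `ℓ` of geometric origin): MP_2e0e07_nt (Bianchi newforms), MP_80bee4_ag, ...

PROOF. Let `A` be the algebra of functions on `Γ` generated by the matrix entries of `ρ`, `σ` and their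
inverses, its points form a group `G` (the Zariski closure). The condition is a polynomial identity and
holds on `G`. Let `(x, 1)` be a point: then `x - 1` is nilpotent (or `det (x - 1) = 0`), and as these `x`
form a group normalised by the irreducible `ρ(Γ)`, `x = 1` (NORM). So points of `A` are determined by
their restriction to the algebra `R` of `σ`; then the entries of `ρ` are in `R` (RING, LAM, FIB; this is
where characteristic zero is used), and `ρ` is a subquotient of a tensor construction (COEF).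

All pieces need only Mathlib (except CHEB). Files `Pool/Agent/Run7/h567/GO/<PIECE>.lean`, namespace
`Run7.h567.GO`, `import Pool.Agent.Run7.h567.GO.Iface`, theorem `t_<PIECE>`.
-/

set_option autoImplicit false

namespace Run7.h567.GO

open Matrix Polynomial

/-- matrix representations of the group `Γ` -/
abbrev MRep (Γ : Type) [Group Γ] (E : Type) [Field E] (n : ℕ) : Type :=
  Γ →* Matrix (Fin n) (Fin n) E

section defs

variable {Γ : Type} [Group Γ] {E : Type} [Field E]

/-- the matrix entry `g ↦ ρ(g)_{ij}` -/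
def ent {n : ℕ} (ρ : MRep Γ E n) (i j : Fin n) : Γ → E := fun g => ρ g i j

/-- the matrix entry `g ↦ ρ(g⁻¹)_{ij}` -/
def ent' {n : ℕ} (ρ : MRep Γ E n) (i j : Fin n) : Γ → E := fun g => ρ g⁻¹ i j

/-- the algebra of functions generated by the entries of `ρ(g)` and `ρ(g⁻¹)` -/
def coefAlg {n : ℕ} (ρ : MRep Γ E n) : Subalgebra E (Γ → E) :=
  Algebra.adjoin E (Set.range (fun p : Fin n × Fin n => ent ρ p.1 p.2) ∪
    Set.range (fun p : Fin n × Fin n => ent' ρ p.1 p.2))

/-- the algebra of functions generated by the entries of `ρ`, `σ` and their inverses -/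
def bigAlg {n m : ℕ} (ρ : MRep Γ E n) (σ : MRep Γ E m) : Subalgebra E (Γ → E) :=
  coefAlg ρ ⊔ coefAlg σ

/-- `ρ` is irreducible. -/
def Irred {n : ℕ} (ρ : MRep Γ E n) : Prop :=
  0 < n ∧ ∀ U : Submodule E (Fin n → E), (∀ g, ∀ u ∈ U, ρ g *ᵥ u ∈ U) → U = ⊥ ∨ U = ⊤

/-- `ρ` is a subquotient of `τ`: a quotient of a subrepresentation `U`. -/
def SubQ {n k : ℕ} (ρ : MRep Γ E n) (τ : MRep Γ E k) : Prop :=
  ∃ (U : Submodule E (Fin k → E)) (hU : ∀ g, ∀ u ∈ U, τ g *ᵥ u ∈ U) (π : U →ₗ[E] (Fin n → E)),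
    Function.Surjective π ∧ ∀ (g : Γ) (u : U), π ⟨τ g *ᵥ u.1, hU g u.1 u.2⟩ = ρ g *ᵥ π u

/-- the tensor product -/
def tens {n k : ℕ} (ρ : MRep Γ E n) (τ : MRep Γ E k) : MRep Γ E (n * k) where
  toFun g := (ρ g).kronecker (τ g) |>.submatrix finProdFinEquiv.symm finProdFinEquiv.symm
  map_one' := by
    rw [map_one, map_one]
    change submatrix (Matrix.kroneckerMap (· * ·) 1 1) _ _ = 1
    rw [Matrix.one_kronecker_one, Matrix.submatrix_one_equiv]
  map_mul' g h := by
    rw [map_mul, map_mul]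
    change submatrix (Matrix.kroneckerMap (· * ·) (ρ g * ρ h) (τ g * τ h)) _ _ = _
    rw [Matrix.mul_kronecker_mul, ← Matrix.submatrix_mul_equiv _ _ _ finProdFinEquiv.symm]
    rfl

/-- the dual representation -/
def dualR {n : ℕ} (ρ : MRep Γ E n) : MRep Γ E n where
  toFun g := (ρ g⁻¹)ᵀ
  map_one' := by rw [inv_one, map_one, Matrix.transpose_one]
  map_mul' g h := by rw [_root_.mul_inv_rev, map_mul, Matrix.transpose_mul]

/-- A class of representations which contains the trivial one and is closed under tensor products,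
duals and subquotients (for example: those which come from geometry). -/
structure TensorClass (𝒢 : ∀ n : ℕ, MRep Γ E n → Prop) : Prop where
  one : 𝒢 1 1
  tens : ∀ {n k : ℕ} (ρ : MRep Γ E n) (τ : MRep Γ E k), 𝒢 n ρ → 𝒢 k τ → 𝒢 (n * k) (tens ρ τ)
  dual : ∀ {n : ℕ} (ρ : MRep Γ E n), 𝒢 n ρ → 𝒢 n (dualR ρ)
  sub : ∀ {n k : ℕ} (ρ : MRep Γ E n) (τ : MRep Γ E k), SubQ ρ τ → 𝒢 k τ → 𝒢 n ρ

/-- `(x, y)` is a point of the algebra of `ρ`, `σ` (an element of the Zariski closure of the group of
the pairs `(ρ g, σ g)`). -/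
def Pt {n m : ℕ} (ρ : MRep Γ E n) (σ : MRep Γ E m) (x : Matrix (Fin n) (Fin n) E)
    (y : Matrix (Fin m) (Fin m) E) : Prop :=
  ∃ φ : bigAlg ρ σ →ₐ[E] E, (∀ i j h, φ ⟨ent ρ i j, h⟩ = x i j) ∧
    (∀ i j h, φ ⟨ent σ i j, h⟩ = y i j)

end defs

/-! ## PT: the points form a group (100-150 lines)

`mem`: evaluation at `g`. `mul`: let `A = bigAlg ρ σ` and `φ`, `ψ` points for `(x, y)`, `(x', y')`. For
`f ∈ A` and `g ∈ Γ` the function `h ↦ f (g h)` is in `A` (`Algebra.adjoin_induction`, with
`(ρ (g h))_{ij} = ∑ k, ρ(g)_{ik} ρ(h)_{kj}` and `ρ((g h)⁻¹)_{ij} = ∑ k, ρ(h⁻¹)_{ik} ρ(g⁻¹)_{kj}`), so left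
translation is an algebra homomorphism `λ_g : A → A`. `Ψ f := (g ↦ ψ (λ_g f))` is an algebra
homomorphism `A → (Γ → E)`, with values in `A` (induction: on the generators it is
`∑ k, x'_{kj} ent ρ i k` etc.). Take `φ ∘ Ψ`. `inv`: `f ↦ (g ↦ f g⁻¹)` is an algebra homomorphism
`ι : A → A` exchanging `ent` and `ent'`; take `φ ∘ ι`, `x'_{ij} = φ (ent' ρ i j)`; and
`∑ k, ent ρ i k * ent' ρ k j = δ_{ij}`. -/

/-- PT -/
def S_PT : Prop := ∀ (Γ : Type) [Group Γ] (E : Type) [Field E] (n m : ℕ) (ρ : MRep Γ E n)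
  (σ : MRep Γ E m),
  (∀ g, Pt ρ σ (ρ g) (σ g)) ∧
  (∀ x y x' y', Pt ρ σ x y → Pt ρ σ x' y' → Pt ρ σ (x * x') (y * y')) ∧
  (∀ x y, Pt ρ σ x y → ∃ x' y', x * x' = 1 ∧ y * y' = 1 ∧ Pt ρ σ x' y')

/-! ## IDT: identities hold at the points (50-80 lines)

The matrices `P = (ent ρ i j)` and `Q = (ent σ i j)` have entries in `A = bigAlg ρ σ`. Evaluation at
`g` maps `aeval P Q.charpoly` to `aeval (ρ g) (σ g).charpoly` (`Matrix.charpoly_map`,
`Polynomial.map_aeval_eq_aeval_map` or `Polynomial.hom_eval₂`), and an element of `A` is zero iff all its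
evaluations are. Apply `φ`. -/

/-- IDT -/
def S_IDT : Prop := ∀ (Γ : Type) [Group Γ] (E : Type) [Field E] (n m : ℕ) (ρ : MRep Γ E n)
  (σ : MRep Γ E m) (x : Matrix (Fin n) (Fin n) E) (y : Matrix (Fin m) (Fin m) E), Pt ρ σ x y →
  (∀ k : ℕ, (∀ g, (aeval (ρ g) (σ g).charpoly) ^ k = 0) → (aeval x y.charpoly) ^ k = 0) ∧
  ((∀ g, (aeval (ρ g) (σ g).charpoly).det = 0) → (aeval x y.charpoly).det = 0)

/-! ## NORM: a normal subgroup (120-160 lines)

Let `S` be the span of the `x - 1`, `x ∈ X`. It is closed under products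
(`(x - 1)(y - 1) = (x y - 1) - (x - 1) - (y - 1)`) and under conjugation by `ρ(g)`. For `s, t ∈ S` we have
`tr (s t) = tr s * tr t`: in case (a) all traces are zero (`tr x = n` and `tr (x y) = n`, as nilpotent
matrices have trace zero); in case (b) `det (x - 1) = 0` says `tr x = 1 + det x`
(`Matrix.det_fin_two`), so `tr ((x-1)(y-1)) = (1 + det x det y) - (1 + det x) - (1 + det y) + 2 =
(det x - 1)(det y - 1)`. Let `S₀ ⊆ S` be the kernel of the trace. It is a two-sided ideal of `S`, and all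
its elements `s` are nilpotent, because `tr (s ^ k) = 0` for all `k ≥ 1`
(`Pool.Agent.H914.isNilpotent_of_trace_pow` or Mathlib). `S₀` has a common kernel: let `U ≠ 0` be an
`S₀`-stable subspace of minimal dimension; if `s u ≠ 0` for some `u ∈ U` then `{t u | t ∈ S₀}` is
`S₀`-stable, nonzero, so it is `U`, so `t u = u` for some `t`, contradiction. The common kernel is
`Γ`-stable, so it is everything and `S₀ = 0`. In case (a) `S = S₀`. In case (b) `S = E s`; if `s ≠ 0` we may
suppose `tr s = 1`, `s ^ 2 = c s` with `c = tr (s ^ 2) = 1`, so `s` is idempotent of rank one, and its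
range is `Γ`-stable (`ρ(g) s ρ(g)⁻¹ ∈ E s`), contradiction. -/

/-- NORM -/
def S_NORM : Prop := ∀ (Γ : Type) [Group Γ] (E : Type) [Field E] [CharZero E] [IsAlgClosed E] (n : ℕ)
  (ρ : MRep Γ E n), Irred ρ → ∀ X : Set (Matrix (Fin n) (Fin n) E), (1 : Matrix _ _ E) ∈ X →
  (∀ x ∈ X, ∀ y ∈ X, x * y ∈ X) → (∀ g, ∀ x ∈ X, ρ g * x * ρ g⁻¹ ∈ X) →
  ((∀ x ∈ X, IsNilpotent (x - 1)) ∨ (n = 2 ∧ ∀ x ∈ X, (x - 1).det = 0)) → ∀ x ∈ X, x = 1

/-! ## RING: the ring theoretic heart (150-250 lines)

`B = A ⊗[R] A` is a finitely generated `E`-algebra. Let `d = f ⊗ 1 - 1 ⊗ f`. For every maximal ideal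
`𝔫` of `B`, `B / 𝔫 = E` (Nullstellensatz), which gives two homomorphisms `A → E` which agree on `R`;
by hypothesis `d ∈ 𝔫`. As `B` is a Jacobson ring, `d` is nilpotent.
Let `F = R_𝔭` (`Localization.AtPrime`); it is a field because `𝔭` is minimal and `R` is reduced. Let `A'`
be the localization of `A` at the image of `R ∖ 𝔭`: a reduced finitely generated `F`-algebra. If `A'` is
trivial then some element of `R ∖ 𝔭` is zero in `A`, and the claim is clear. Otherwise: let `Ω` be
an algebraic closure of `F`. For all `F`-homomorphisms `φ, ψ : A' → Ω` the elements `φ f` and `ψ f` agree: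
they give `B → Ω` which kills the nilpotent `d`. There is one such `φ` (a maximal ideal `𝔫` of `A'`, `A' / 𝔫`
is finite over `F`); applying it to `γ ∘ φ`, `γ ∈ Gal(Ω / F)`, we see that `φ f` is fixed by all `γ`, so it is
an element `a` of `F` (characteristic zero). So `f - a` is in all maximal ideals of `A'`, so it is
nilpotent (Jacobson), so `f = a` in `A'`. Clear denominators. -/

/-- RING -/
def S_RING : Prop := ∀ (E : Type) [Field E] [CharZero E] [IsAlgClosed E] (R A : Type) [CommRing R]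
  [CommRing A] [Algebra E R] [Algebra E A] [Algebra R A] [IsScalarTower E R A]
  [Algebra.FiniteType E R] [Algebra.FiniteType E A] [IsReduced R] [IsReduced A],
  Function.Injective (algebraMap R A) → ∀ f : A,
  (∀ φ ψ : A →ₐ[E] E, (∀ r : R, φ (algebraMap R A r) = ψ (algebraMap R A r)) → φ f = ψ f) →
  ∀ 𝔭 ∈ minimalPrimes R, ∃ s ∉ 𝔭, ∃ r : R, algebraMap R A s * f = algebraMap R A r

/-! ## LAM: translation by a point is injective (60-100 lines)

Let `φ : R → E` be a point of `R = coefAlg σ`. The map `Λ s := (x ↦ φ (r_x s))`, where `(r_x s)(g) = s (g x)`,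
is an algebra homomorphism `R → R`; on the generators `Λ (ent σ i j) = ∑ k, φ(ent σ i k) ent σ k j` and
`Λ (ent' σ i j) = ∑ k, φ(ent' σ k j) ent' σ i k`. It has a left inverse, given by the same formulas with
`φ(ent σ i k)` replaced by `φ(ent' σ i k)` (the point `s ↦ φ (g ↦ s g⁻¹)`); note
`∑ k, φ(ent' σ i k) φ(ent σ k j) = δ_{ij}`. Alternative: `Λ_φ ∘ Λ_ψ = Λ_{ψ * φ}` as in PT. -/

/-- LAM -/
def S_LAM : Prop := ∀ (Γ : Type) [Group Γ] (E : Type) [Field E] (m : ℕ) (σ : MRep Γ E m)
  (φ : coefAlg σ →ₐ[E] E) (s : coefAlg σ),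
  (∀ (x : Γ) (t : coefAlg σ), (∀ g, t.1 g = s.1 (g * x)) → φ t = 0) → s = 0

/-! ## FIB: the entries of `ρ` are in the algebra of `σ` (120-160 lines; uses PT, RING, LAM)

`R = coefAlg σ`, `A = bigAlg ρ σ`, both finitely generated and reduced (functions with values in a
field). If two points `φ, ψ` of `A` agree on `R` then by PT `(x, y)`, `(x', y)` are points, so
`(x⁻¹ x', 1)` is one and `x = x'`. RING: for a minimal prime `𝔭` of `R` and `i, j` there is `s ∉ 𝔭` with
`s * ent ρ i j ∈ R`; take the product of these over all `i, j`. So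
`𝔞 = {s ∈ R | ∀ i j, s * ent ρ i j ∈ R}` is a nonzero ideal of `R`. It is stable under the right
translations `r_x` (multiply `r_x (s * ent ρ i j) = r_x s * ∑ k, ρ(x)_{kj} ent ρ i k` by the matrix
`ρ(x⁻¹)`). If `𝔞 ≠ R` there is (Nullstellensatz) `φ : R → E` with `φ 𝔞 = 0`, and by LAM every `s ∈ 𝔞` is
zero. So `1 ∈ 𝔞`. -/

/-- FIB -/
def S_FIB : Prop := ∀ (Γ : Type) [Group Γ] (E : Type) [Field E] [CharZero E] [IsAlgClosed E] (n m : ℕ)
  (ρ : MRep Γ E n) (σ : MRep Γ E m), (∀ x, Pt ρ σ x 1 → x = 1) →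
  ∀ i j, ent ρ i j ∈ coefAlg σ

/-! ## COEF: subquotients (150-200 lines)

Let `𝓕` be the set of the finite sums of functions `g ↦ ∑ i, ξ i * (τ g *ᵥ v) i`, for representations
`τ` in `𝒢`. It is a subalgebra (products: `tens`; `1`: the trivial representation) and contains the
generators of `coefAlg σ` (`dual`), so it contains the entries of `ρ`. So there are finitely many `τ_l ∈ 𝒢` and
`ξ_l` such that the functions `ι(v) := (g ↦ (ρ g *ᵥ v) 0)` are in the sum of the spaces
`M_l = {g ↦ ∑ i, ξ_l i * (τ_l g *ᵥ u) i | u}`. `ι` is injective because `ρ` is irreducible, and commutes with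
the action of `Γ` by right translations, like `u ↦ (g ↦ ∑ i, ξ_l i * (τ_l g *ᵥ u) i)`. Induction on the
number `r` of the `M_l`: let `M'` be the sum of the first `r - 1`. `{v | ι(v) ∈ M'}` is stable: if it is
everything, use induction; if it is `0`, take `U = {u | ι_{τ_r}(u) ∈ ι(V) + M'}` and
`π(u) =` the unique `v` with `ι_{τ_r}(u) - ι(v) ∈ M'`. -/

/-- COEF -/
def S_COEF : Prop := ∀ (Γ : Type) [Group Γ] (E : Type) [Field E]
  (𝒢 : ∀ n : ℕ, MRep Γ E n → Prop), TensorClass 𝒢 → ∀ (n m : ℕ) (ρ : MRep Γ E n) (σ : MRep Γ E m),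
  Irred ρ → 𝒢 m σ → (∀ i j, ent ρ i j ∈ coefAlg σ) → 𝒢 n ρ

/-! ## CLS: the class of the subquotients of a family (120-160 lines) -/

/-- CLS. The subquotients of the members of a family of representations `H x` (think of
`H^i(X)(j)`), such that tensor products and duals of members are subquotients of members, form a
`TensorClass`. (A subquotient of a subquotient is a subquotient; if `ρ` is a quotient of `U ⊆ τ` and `ρ'`
one of `U' ⊆ τ'` then `ρ ⊗ ρ'` is a quotient of `U ⊗ U' ⊆ τ ⊗ τ'`, e.g. of the span of the `u ⊗ u'`; the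
dual of `ρ` is the subspace of the functionals on `U` which factor over `π`, a subquotient of the
dual of `τ`.) -/
def S_CLS : Prop := ∀ (Γ : Type) [Group Γ] (E : Type) [Field E] (I : Type) (d : I → ℕ)
  (H : ∀ x, MRep Γ E (d x)), (∃ x, SubQ (1 : MRep Γ E 1) (H x)) →
  (∀ x y, ∃ z, SubQ (tens (H x) (H y)) (H z)) → (∀ x, ∃ y, SubQ (dualR (H x)) (H y)) →
  TensorClass fun n (ρ : MRep Γ E n) => ∃ x, SubQ ρ (H x)

/-! ## NEC: eigenvalues of subquotients (20-30 lines) -/

/-- NEC: Cayley-Hamilton on `τ`, restricted to `U` and pushed forward. -/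
def S_NEC : Prop := ∀ (Γ : Type) [Group Γ] (E : Type) [Field E] (n k : ℕ) (ρ : MRep Γ E n)
  (τ : MRep Γ E k), SubQ ρ τ → ∀ g, aeval (ρ g) (τ g).charpoly = 0

/-! ## CONT: the conditions are closed (40-80 lines)

The coefficients of `(σ g).charpoly` are polynomials in the entries (`Matrix.charpoly.univ`,
`MvPolynomial.continuous_eval`), so `g ↦ aeval (ρ g) (σ g).charpoly` is continuous. -/

/-- CONT -/
def S_CONT : Prop := ∀ (Γ : Type) [TopologicalSpace Γ] (E : Type) [Field E] [TopologicalSpace E]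
  [IsTopologicalRing E] (n m : ℕ) (ρ : Γ → Matrix (Fin n) (Fin n) E)
  (σ : Γ → Matrix (Fin m) (Fin m) E), Continuous ρ → Continuous σ →
  Continuous fun g => aeval (ρ g) (σ g).charpoly

end Run7.h567.GO
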