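import Mathlib

/-!
# Project GO: eigenvalues of a polynomial in a matrix
-/

set_option autoImplicit false

namespace Run7.h567.GO

open Matrix Polynomial

variable {E : Type} [Field E] [IsAlgClosed E] {n : ℕ}

theorem card_roots (A : Matrix (Fin n) (Fin n) E) : A.charpoly.roots.card = n := by
  rw [splits_iff_card_roots.1 (IsAlgClosed.splits A.charpoly), charpoly_natDegree_eq_dim,
    Fintype.card_fin]

theorem det_sub (A : Matrix (Fin n) (Fin n) E) (b : E) :
    (A - algebraMap E _ b).det = (A.charpoly.roots.map (fun a => a - b)).prod := by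
  have h1 : A - algebraMap E _ b = -(scalar (Fin n) b - A) := by
    rw [neg_sub]; rfl
  have h2 : (scalar (Fin n) b - A).det = (A.charpoly.roots.map (fun a => b - a)).prod := by
    rw [← Matrix.eval_charpoly]
    exact (IsAlgClosed.splits A.charpoly).eval_eq_prod_roots_of_monic A.charpoly_monic b
  rw [h1, Matrix.det_neg, h2, Fintype.card_fin]
  have h3 : (A.charpoly.roots.map (fun a => a - b)) =
      (A.charpoly.roots.map (fun a => -1 * (b - a))) := by
    refine Multiset.map_congr rfl fun a _ => by ring
  rw [h3, Multiset.prod_map_mul, Multiset.map_const', Multiset.prod_replicate, card_roots]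

theorem det_aeval (A : Matrix (Fin n) (Fin n) E) (q : E[X]) :
    (aeval A q).det = (A.charpoly.roots.map (fun a => q.eval a)).prod := by
  by_cases hq : q = 0
  · subst hq
    rcases Nat.eq_zero_or_pos n with hn | hn
    · subst hn
      have h1 : A.charpoly.roots = 0 := Multiset.card_eq_zero.1 (card_roots A)
      rw [h1, Multiset.map_zero, Multiset.prod_zero, Matrix.det_isEmpty]
    · have : Nonempty (Fin n) := ⟨⟨0, hn⟩⟩
      have h1 : (A.charpoly.roots.map (fun a => (0 : E[X]).eval a)).prod = 0 := by
        simp only [eval_zero]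
        rw [Multiset.map_const', Multiset.prod_replicate, card_roots, zero_pow hn.ne']
      rw [h1, map_zero, Matrix.det_zero]
  · have key : ∀ s : Multiset E, (aeval A (s.map (fun b => X - C b)).prod).det =
        (A.charpoly.roots.map (fun a => ((s.map (fun b => X - C b)).prod).eval a)).prod := by
      intro s
      induction s using Multiset.induction_on with
      | empty => simp
      | cons b s ih =>
        rw [Multiset.map_cons, Multiset.prod_cons, map_mul, Matrix.det_mul, ih]
        simp only [eval_mul, eval_sub, eval_X, eval_C]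
        rw [Multiset.prod_map_mul, map_sub, aeval_X, aeval_C, det_sub]
    have h1 := (IsAlgClosed.splits q).eq_prod_roots
    rw [h1, map_mul, Matrix.det_mul, key, aeval_C]
    simp only [eval_mul, eval_C]
    rw [Multiset.prod_map_mul, Multiset.map_const', Multiset.prod_replicate, card_roots]
    congr 1
    rw [Algebra.algebraMap_eq_smul_one, Matrix.det_smul, Matrix.det_one, mul_one, Fintype.card_fin]

/-- The eigenvalues of `p(A)`. -/
theorem roots_aeval (A : Matrix (Fin n) (Fin n) E) (p : E[X]) :
    (aeval A p).charpoly.roots = A.charpoly.roots.map (fun a => p.eval a) := by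
  have h1 : (aeval A p).charpoly = (A.charpoly.roots.map (fun a => X - C (p.eval a))).prod := by
    apply Polynomial.funext
    intro t
    rw [Matrix.eval_charpoly]
    have h2 : scalar (Fin n) t - aeval A p = aeval A (C t - p) := by
      rw [map_sub, aeval_C]; rfl
    rw [h2, det_aeval, Polynomial.eval_multiset_prod, Multiset.map_map]
    congr 1
    refine Multiset.map_congr rfl fun a _ => ?_
    simp
  have h3 : (A.charpoly.roots.map (fun a => X - C (p.eval a))) =
      ((A.charpoly.roots.map (fun a => p.eval a)).map (fun b => X - C b)) := by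
    rw [Multiset.map_map]
    rfl
  rw [h1, h3, Polynomial.roots_multiset_prod_X_sub_C]

omit [IsAlgClosed E] in
open scoped Classical in
/-- the multiplicity of the eigenvalue zero -/
theorem X_pow_dvd_iff' (A : Matrix (Fin n) (Fin n) E) (k : ℕ) :
    (X : E[X]) ^ k ∣ A.charpoly ↔ k ≤ A.charpoly.roots.count 0 := by
  rw [Polynomial.count_roots, Polynomial.le_rootMultiplicity_iff A.charpoly_monic.ne_zero, C_0,
    sub_zero]

/-- common roots -/
theorem X_pow_dvd_of_dvd (A : Matrix (Fin n) (Fin n) E) {p q : E[X]} (h1 : q ∣ A.charpoly)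
    (h2 : q ∣ p ^ n) : (X : E[X]) ^ q.natDegree ∣ (aeval A p).charpoly := by
  classical
  rw [X_pow_dvd_iff', roots_aeval]
  have h3 : q.roots ≤ A.charpoly.roots :=
    Polynomial.roots.le_of_dvd A.charpoly_monic.ne_zero h1
  have h4 : (q.roots.map fun a => p.eval a) ≤ A.charpoly.roots.map fun a => p.eval a :=
    Multiset.map_le_map h3
  have h5 : (q.roots.map fun a => p.eval a) = Multiset.replicate q.roots.card 0 := by
    rw [Multiset.eq_replicate]
    refine ⟨Multiset.card_map _ _, fun b hb => ?_⟩
    obtain ⟨a, ha, rfl⟩ := Multiset.mem_map.1 hb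
    have h6 : q.eval a = 0 := isRoot_of_mem_roots ha
    obtain ⟨r, hr⟩ := h2
    have h7 : (p ^ n).eval a = 0 := by rw [hr, eval_mul, h6, zero_mul]
    rw [eval_pow] at h7
    exact eq_zero_of_pow_eq_zero h7
  have h6 : q.roots.card = q.natDegree := splits_iff_card_roots.1 (IsAlgClosed.splits q)
  rw [h5, h6] at h4
  exact Multiset.le_count_iff_replicate_le.2 h4

/-- a matrix `x` such that `(x - 1) ^ m` has at most one nonzero eigenvalue -/
theorem trace_of_dvd {n m : ℕ} (hn : 2 ≤ n) (x : Matrix (Fin n) (Fin n) E)
    (h : (X : E[X]) ^ (n - 1) ∣ ((x - 1) ^ m).charpoly) : x.trace = (n - 1 : ℕ) + x.det := by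
  classical
  set z := x - 1 with hz
  have hx : x = aeval z (X + 1 : E[X]) := by simp [hz]
  have h1 : ((z ^ m).charpoly.roots) = z.charpoly.roots.map (fun a => a ^ m) := by
    have := roots_aeval z (X ^ m)
    simpa using this
  rw [X_pow_dvd_iff', h1] at h
  have hm : m ≠ 0 := by
    rintro rfl
    simp only [pow_zero] at h
    rw [Multiset.map_const', Multiset.count_replicate, if_neg one_ne_zero] at h
    omega
  have h2 : n - 1 ≤ z.charpoly.roots.count 0 := by
    refine h.trans ?_
    rw [Multiset.count_map, Multiset.count_eq_card_filter_eq]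
    apply Multiset.card_le_card
    apply Multiset.monotone_filter_right
    intro a ha
    exact (eq_zero_of_pow_eq_zero ha.symm).symm
  obtain ⟨s, hs⟩ := Multiset.le_iff_exists_add.1 (Multiset.le_count_iff_replicate_le.1 h2)
  have h3 : s.card = 1 := by
    have h4 := card_roots z
    rw [hs, Multiset.card_add, Multiset.card_replicate] at h4
    omega
  obtain ⟨a, rfl⟩ := Multiset.card_eq_one.1 h3
  have h5 : x.charpoly.roots = Multiset.replicate (n - 1) 1 + {a + 1} := by
    conv_lhs => rw [hx]
    rw [roots_aeval, hs, Multiset.map_add, Multiset.map_replicate, Multiset.map_singleton]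
    simp
  rw [Matrix.trace_eq_sum_roots_charpoly_of_splits (IsAlgClosed.splits _),
    Matrix.det_eq_prod_roots_charpoly_of_splits (IsAlgClosed.splits _), h5]
  simp

end Run7.h567.GO
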